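import Pool.Agent.Helper65.FN.Sanov
import Pool.Agent.Helper77.T2.Hyp

/-!
# Virtual largeness from labelled permutations
-/

open Matrix H77T2

namespace Pool.Agent.Helper65.FN

attribute [local instance] actZ

theorem comm_of_subsingleton {ι : Type*} [Subsingleton ι] (x y : FreeGroup ι) : Commute x y := by
  have h1 : ∀ (i : ι) (z : FreeGroup ι), Commute (FreeGroup.of i) z := by
    intro i z
    induction z using FreeGroup.induction_on with
    | C1 => exact Commute.one_right _
    | of j =>
      rw [Subsingleton.elim j i]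
    | inv_of j h => exact h.inv_right
    | mul a b ha hb => exact ha.mul_right hb
  induction x using FreeGroup.induction_on with
  | C1 => exact Commute.one_left _
  | of j => exact h1 j y
  | inv_of j h => exact h.inv_left
  | mul a b ha hb => exact ha.mul_left hb

theorem noncomm (H : Subgroup (FreeGroup (Fin 2))) (hH : H.index ≠ 0) :
    ∃ x ∈ H, ∃ y ∈ H, x * y ≠ y * x := by
  obtain ⟨n, hn, -, hx⟩ := Subgroup.exists_pow_mem_of_index_ne_zero hH (FreeGroup.of 0)
  obtain ⟨k, hk, -, hy⟩ := Subgroup.exists_pow_mem_of_index_ne_zero hH (FreeGroup.of 1)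
  refine ⟨_, hx, _, hy, fun h => ?_⟩
  have h1 := congrArg (fun w => FreeGroup.lift gen w • (![1, 0] : Fin 2 → ℤ)) h
  simp only [map_mul, map_pow, FreeGroup.lift_apply_of] at h1
  have e0 : gen 0 = sM := rfl
  have e1 : gen 1 = aM * sM * aM⁻¹ := rfl
  rw [e0, e1, conj_pow, aM_inv] at h1
  simp only [mul_smul] at h1
  have hs : ∀ (j : ℕ) (v : Fin 2 → ℤ), sM ^ j • v = ![v 0 + 2 * j * v 1, v 1] := by
    intro j v
    have := sM_zpow_smul j v
    rw [zpow_natCast] at this
    rw [this]
  simp only [hs, aM_smul] at h1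
  have h2 := congrFun h1 0
  simp at h2
  omega

theorem exists_free (H : Subgroup (FreeGroup (Fin 2))) (hH : H.index ≠ 0) :
    ∃ ι : Type, Nontrivial ι ∧ Nonempty (H ≃* FreeGroup ι) := by
  refine ⟨IsFreeGroup.Generators H, ?_, ⟨IsFreeGroup.toFreeGroup H⟩⟩
  by_contra hcon
  have : Subsingleton (IsFreeGroup.Generators H) := not_nontrivial_iff_subsingleton.mp hcon
  obtain ⟨x, hx, y, hy, hxy⟩ := noncomm H hH
  apply hxy
  have h1 := comm_of_subsingleton (IsFreeGroup.toFreeGroup H ⟨x, hx⟩)
    (IsFreeGroup.toFreeGroup H ⟨y, hy⟩)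
  have h2 : (⟨x, hx⟩ : H) * ⟨y, hy⟩ = ⟨y, hy⟩ * ⟨x, hx⟩ := by
    apply (IsFreeGroup.toFreeGroup H).injective
    rw [map_mul, map_mul]
    exact h1
  exact congrArg Subtype.val h2

/-- finite index subgroups of groups with a virtual surjection onto `F_2` are virtually large -/
theorem virtuallyLarge_of {G : Type} [Group G] (K : Subgroup G) (hK : K.index ≠ 0)
    (ψ : K →* FreeGroup (Fin 2)) (hψ : Function.Surjective ψ) (Γ : Subgroup G)
    (hΓ : Γ.index ≠ 0) : VirtuallyLarge Γ := by
  let j : K.subgroupOf Γ →* K :=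
    { toFun := fun x => ⟨x.1.1, x.2⟩
      map_one' := rfl
      map_mul' := fun _ _ => rfl }
  have hr : (ψ.comp j).range = (Γ.subgroupOf K).map ψ := by
    ext w
    constructor
    · rintro ⟨x, rfl⟩
      exact ⟨j x, x.1.2, rfl⟩
    · rintro ⟨x, hx, rfl⟩
      exact ⟨⟨⟨x.1, hx⟩, x.2⟩, rfl⟩
  have hri : (ψ.comp j).range.index ≠ 0 := by
    rw [hr]
    intro h0
    have h1 := Subgroup.index_map_dvd (f := ψ) (Γ.subgroupOf K) hψ
    rw [h0, zero_dvd_iff] at h1
    have : Γ.FiniteIndex := ⟨hΓ⟩
    exact (inferInstance : (Γ.subgroupOf K).FiniteIndex).index_ne_zero h1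
  obtain ⟨ι, hι, ⟨e⟩⟩ := exists_free _ hri
  refine ⟨K.subgroupOf Γ, ?_, ι, hι, e.toMonoidHom.comp (ψ.comp j).rangeRestrict, ?_⟩
  · have : K.FiniteIndex := ⟨hK⟩
    infer_instance
  · exact e.surjective.comp (ψ.comp j).rangeRestrict_surjective

theorem VirtuallyLarge.of_equiv {G G' : Type} [Group G] [Group G'] (e : G ≃* G')
    (h : VirtuallyLarge G) : VirtuallyLarge G' := by
  obtain ⟨Δ, hΔ, ι, hι, φ, hφ⟩ := h
  refine ⟨Δ.comap e.symm.toMonoidHom, ?_, ι, hι, ?_⟩
  · constructor
    rw [Subgroup.index_comap_of_surjective _ e.symm.surjective]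
    exact hΔ.index_ne_zero
  · let j : Δ.comap e.symm.toMonoidHom →* Δ :=
      { toFun := fun x => ⟨e.symm x.1, x.2⟩
        map_one' := by
          apply Subtype.ext
          exact map_one e.symm
        map_mul' := fun x y => by
          apply Subtype.ext
          exact map_mul e.symm x.1 y.1 }
    refine ⟨φ.comp j, hφ.comp ?_⟩
    rintro ⟨y, hy⟩
    refine ⟨⟨e y, ?_⟩, ?_⟩
    · show e.symm (e y) ∈ Δ
      rwa [MulEquiv.symm_apply_apply]
    · apply Subtype.ext
      exact e.symm_apply_apply y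

/-- version for subgroups of a larger group -/
theorem virtuallyLarge_sub {G : Type} [Group G] {Gam Γ : Subgroup G} (hle : Γ ≤ Gam)
    (hΓ : (Γ.subgroupOf Gam).FiniteIndex)
    (h : ∃ K : Subgroup Gam, K.index ≠ 0 ∧
      ∃ ψ : K →* FreeGroup (Fin 2), Function.Surjective ψ) : VirtuallyLarge Γ := by
  obtain ⟨K, hK, ψ, hψ⟩ := h
  exact VirtuallyLarge.of_equiv (Subgroup.subgroupOfEquivOfLe hle)
    (virtuallyLarge_of K hK ψ hψ (Γ.subgroupOf Gam) hΓ.index_ne_zero)

/-! ### labelled permutations -/

/-- permutations of `X` with labels in `M` -/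
@[ext] structure WP (X M : Type*) where
  /-- the permutation -/
  perm : Equiv.Perm X
  /-- the labels -/
  lab : X → M

namespace WP

variable {X M : Type*} [Group M]

instance : One (WP X M) := ⟨⟨1, fun _ => 1⟩⟩
instance : Mul (WP X M) := ⟨fun p q => ⟨p.perm * q.perm, fun i => p.lab (q.perm i) * q.lab i⟩⟩
instance : Inv (WP X M) := ⟨fun p => ⟨p.perm⁻¹, fun i => (p.lab (p.perm⁻¹ i))⁻¹⟩⟩

@[simp] theorem one_perm : (1 : WP X M).perm = 1 := rfl
@[simp] theorem one_lab (i : X) : (1 : WP X M).lab i = 1 := rfl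
@[simp] theorem mul_perm (p q : WP X M) : (p * q).perm = p.perm * q.perm := rfl
@[simp] theorem mul_lab (p q : WP X M) (i : X) : (p * q).lab i = p.lab (q.perm i) * q.lab i := rfl
@[simp] theorem inv_perm (p : WP X M) : (p⁻¹).perm = p.perm⁻¹ := rfl
@[simp] theorem inv_lab (p : WP X M) (i : X) : (p⁻¹).lab i = (p.lab (p.perm⁻¹ i))⁻¹ := rfl

instance : Group (WP X M) where
  mul_assoc p q r := by
    ext i
    · rfl
    · simp [mul_assoc]
  one_mul p := by
    ext i
    · rfl
    · simp
  mul_one p := by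
    ext i
    · rfl
    · simp
  inv_mul_cancel p := by
    ext i
    · simp
    · simp

/-- the permutation part -/
def permHom : WP X M →* Equiv.Perm X where
  toFun := perm
  map_one' := rfl
  map_mul' _ _ := rfl

end WP

variable {G X M : Type*} [Group G] [Group M]

/-- the stabiliser of a point -/
def stabP (φ : G →* WP X M) (i : X) : Subgroup G where
  carrier := {g | (φ g).perm i = i}
  one_mem' := by
    show (φ 1).perm i = i
    rw [map_one]
    rfl
  mul_mem' := by
    intro g h hg hh
    show (φ (g * h)).perm i = i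
    rw [map_mul, WP.mul_perm, Equiv.Perm.mul_apply, hh, hg]
  inv_mem' := by
    intro g hg
    show (φ g⁻¹).perm i = i
    rw [map_inv, WP.inv_perm, Equiv.Perm.inv_eq_iff_eq]
    exact hg.symm

theorem stabP_index [Finite X] (φ : G →* WP X M) (i : X) : (stabP φ i).index ≠ 0 := by
  have h1 : (WP.permHom.comp φ).ker ≤ stabP φ i := by
    intro g hg
    show (φ g).perm i = i
    have h2 : (φ g).perm = 1 := hg
    rw [h2]
    rfl
  have h2 : (WP.permHom.comp φ).ker.index ≠ 0 := by
    have : Finite (WP.permHom.comp φ).range := inferInstance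
    exact Subgroup.FiniteIndex.index_ne_zero
  intro h0
  have h3 := Subgroup.index_dvd_of_le h1
  rw [h0, zero_dvd_iff] at h3
  exact h2 h3

/-- the label at a fixed point -/
def labP (φ : G →* WP X M) (i : X) : stabP φ i →* M where
  toFun g := (φ g.1).lab i
  map_one' := by
    show (φ 1).lab i = 1
    rw [map_one]
    rfl
  map_mul' g h := by
    show (φ (g.1 * h.1)).lab i = (φ g.1).lab i * (φ h.1).lab i
    have : (φ h.1).perm i = i := h.2
    rw [map_mul, WP.mul_lab, this]

theorem index_of_two {K : Subgroup G} (c : G) (h : ∀ g, g ∈ K ∨ c * g ∈ K) : K.index ≠ 0 := by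
  have h1 : Finite (G ⧸ K) := by
    apply Finite.of_surjective (fun b : Bool => if b then (QuotientGroup.mk 1 : G ⧸ K)
      else QuotientGroup.mk c⁻¹)
    intro q
    obtain ⟨g, rfl⟩ := QuotientGroup.mk_surjective q
    rcases h g with h2 | h2
    · refine ⟨true, ?_⟩
      simp only [if_true]
      rw [QuotientGroup.eq, inv_one, one_mul]
      exact h2
    · refine ⟨false, ?_⟩
      simp only [Bool.false_eq_true, if_false]
      rw [QuotientGroup.eq, inv_inv]
      exact h2
  exact Subgroup.index_ne_zero_of_finite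

/-- a labelled permutation representation with labels generating `⟨a, s⟩` gives a virtual
surjection onto `F_2` -/
theorem large_of_wp {G X : Type*} [Group G] [Finite X] (φ : G →* WP X (GL (Fin 2) ℤ)) (i : X)
    (hlab : ∀ g, (φ g).perm i = i → (φ g).lab i ∈ Subgroup.closure {aM, sM})
    (ha : ∃ g, (φ g).perm i = i ∧ (φ g).lab i = aM)
    (hs : ∃ g, (φ g).perm i = i ∧ (φ g).lab i = sM) :
    ∃ K : Subgroup G, K.index ≠ 0 ∧
      ∃ ψ : K →* FreeGroup (Fin 2), Function.Surjective ψ := by
  obtain ⟨ga, ha1, ha2⟩ := ha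
  obtain ⟨gs, hs1, hs2⟩ := hs
  let xa : stabP φ i := ⟨ga, ha1⟩
  let xs : stabP φ i := ⟨gs, hs1⟩
  have hxa : labP φ i xa = aM := ha2
  have hxs : labP φ i xs = sM := hs2
  let K' : Subgroup (stabP φ i) := (FreeGroup.lift gen).range.comap (labP φ i)
  have hK' : K'.index ≠ 0 := by
    apply index_of_two xa
    intro g
    show labP φ i g ∈ (FreeGroup.lift gen).range ∨ labP φ i (xa * g) ∈ (FreeGroup.lift gen).range
    rw [map_mul, hxa]
    exact mem_or (hlab g.1 g.2)
  let K : Subgroup G := K'.map (stabP φ i).subtype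
  have hK : K.index ≠ 0 := by
    show (K'.map (stabP φ i).subtype).index ≠ 0
    rw [Subgroup.index_map_subtype]
    exact mul_ne_zero hK' (stabP_index φ i)
  let e : K' ≃* K := K'.equivMapOfInjective _ (stabP φ i).subtype_injective
  let r : K' →* (FreeGroup.lift gen).range :=
    { toFun := fun x => ⟨labP φ i x.1, x.2⟩
      map_one' := by
        apply Subtype.ext
        exact map_one (labP φ i)
      map_mul' := fun x y => by
        apply Subtype.ext
        exact map_mul (labP φ i) x.1 y.1 }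
  let f : FreeGroup (Fin 2) ≃* (FreeGroup.lift gen).range := MonoidHom.ofInjective sanov
  refine ⟨K, hK, (f.symm.toMonoidHom.comp r).comp e.symm.toMonoidHom, ?_⟩
  have hr : Function.Surjective r := by
    rintro ⟨y, w, hw⟩
    let g : stabP φ i := FreeGroup.lift (fun j : Fin 2 => if j = 0 then xs else xa * xs * xa⁻¹) w
    have hg : labP φ i g = FreeGroup.lift gen w := by
      have h1 : (labP φ i).comp
          (FreeGroup.lift (fun j : Fin 2 => if j = 0 then xs else xa * xs * xa⁻¹)) =
          FreeGroup.lift gen := by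
        ext1 j
        simp only [MonoidHom.comp_apply, FreeGroup.lift_apply_of, gen]
        split_ifs
        · exact hxs
        · rw [map_mul, map_mul, map_inv, hxs, hxa]
      exact DFunLike.congr_fun h1 w
    refine ⟨⟨g, ?_⟩, ?_⟩
    · show labP φ i g ∈ (FreeGroup.lift gen).range
      exact ⟨w, hg.symm⟩
    · apply Subtype.ext
      show labP φ i g = y
      rw [hg, hw]
  exact (f.symm.surjective.comp hr).comp e.symm.surjective

end Pool.Agent.Helper65.FN
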