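import Pool.Agent.Helper65.FN.Lat
import Pool.Agent.Helper65.FN.VL

/-!
# MP_0fb3e0: the assembly

`Γ = Gam0 ⊓ Gam`, where `Gam` is the cocompact group with the homomorphism to the labelled
permutations and `Gam0` the congruence subgroup.
-/

namespace Pool.Agent.Helper65.FN

open H77T2 Matrix Pool.Agent.Helper65.PK

/-- **the assembly of the counterexample.** -/
theorem not_question {H Gam0 Gam : Subgroup (GL (Fin (5 + 1)) ℝ)} (hH : H ≤ IsomHyp 5)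
    (hfin : ∀ C : ℝ, {γ : GL (Fin (5 + 1)) ℝ | γ ∈ H ∧ (γ.1 *ᵥ e0 5) 0 ≤ C}.Finite)
    (hidx : Gam0.relIndex H ≠ 0) (htf : TorsionFree Gam0) (hGam : Gam ≤ H)
    (hcoc : ∃ R : ℝ, ∀ x ∈ Hyp 5, ∃ γ ∈ Gam, (γ.1 *ᵥ x) 0 ≤ R)
    (hlarge : ∃ K : Subgroup Gam, K.index ≠ 0 ∧
      ∃ ψ : K →* FreeGroup (Fin 2), Function.Surjective ψ)
    (hno : ∀ Γ : Subgroup (GL (Fin (5 + 1)) ℝ), Γ ≤ Gam0 → Γ ≤ IsomHyp 5 →
      (∃ R : ℝ, ∀ x ∈ Hyp 5, ∃ γ ∈ Γ, (γ.1 *ᵥ x) 0 ≤ R) →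
      (∀ C : ℝ, {γ : GL (Fin (5 + 1)) ℝ | γ ∈ Γ ∧ (γ.1 *ᵥ e0 5) 0 ≤ C}.Finite) →
      ¬ HasGeodesicHypersurface 4 Γ) :
    ¬ Question := by
  intro hQ
  have hfi : (((Gam0 ⊓ Gam).subgroupOf Gam)).FiniteIndex := by
    refine ⟨?_⟩
    rw [Subgroup.inf_subgroupOf_right]
    have h1 : Gam0.relIndex Gam ≠ 0 := fun h0 =>
      hidx (Subgroup.relIndex_eq_zero_of_le_right hGam h0)
    exact h1
  have hle : Gam0 ⊓ Gam ≤ Gam := inf_le_right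
  have hI : Gam ≤ IsomHyp 5 := hGam.trans hH
  have hI' : Gam0 ⊓ Gam ≤ IsomHyp 5 := hle.trans hI
  have hfin' : ∀ C : ℝ, {γ : GL (Fin (5 + 1)) ℝ |
      γ ∈ Gam0 ⊓ Gam ∧ (γ.1 *ᵥ e0 5) 0 ≤ C}.Finite := fun C =>
    (hfin C).subset fun γ hγ => ⟨hGam (hle hγ.1), hγ.2⟩
  have hcoc' := cocompact_of_finiteIndex hI hfi hcoc
  have hL := isLattice_of_cocompact hI' hcoc' hfin'
  have hT : TorsionFree (Gam0 ⊓ Gam) := fun γ hγ => htf γ hγ.1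
  have hV : VirtuallyLarge ↥(Gam0 ⊓ Gam) := virtuallyLarge_sub hle hfi hlarge
  exact hno _ inf_le_left hI' hcoc' hfin' ((hQ 4 (by norm_num) _ hL hT).1 hV)

end Pool.Agent.Helper65.FN
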