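import Pool.Agent.Helper65.FN.TorAbs
import Pool.Agent.Helper77.T2.Ord
import Pool.Agent.Helper77.T2.Hyp
import Pool.Agent.Helper84.NG.Nrm

/-!
# MP_0fb3e0: the image of the congruence subgroup modulo 3 of `O^×` is torsion-free
-/

namespace Pool.Agent.Helper65.FN

open H77T2 Pool.Agent.Helper84.NG

theorem natCast_mul_smul (n : ℕ) (x : A5 ℚ) : (n : A5 ℚ) * x = (n : ℚ) • x := by
  rw [Algebra.smul_def, algebraMapA, of_natCast]

theorem natCast_mul_eq_zero {n : ℕ} (hn : n ≠ 0) {x : A5 ℚ} (h : (n : A5 ℚ) * x = 0) :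
    x = 0 := by
  rw [natCast_mul_smul] at h
  rcases smul_eq_zero.1 h with h1 | h1
  · exact absurd (Nat.cast_eq_zero.1 h1) hn
  · exact h1

theorem int_eq_zero_of_pow_dvd {c : ℤ} (h : ∀ e : ℕ, (3 : ℤ) ^ e ∣ c) : c = 0 := by
  by_contra hc
  have h1 := h c.natAbs
  have h2 : 3 ^ c.natAbs ∣ c.natAbs := by
    have := Int.natAbs_dvd_natAbs.2 h1
    simpa [Int.natAbs_pow] using this
  have h3 := Nat.le_of_dvd (Int.natAbs_pos.2 hc) h2
  exact absurd h3 (not_le.2 (Nat.lt_pow_self (by norm_num)))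

theorem a5_eq_zero {x : A5 ℤ} (h : ∀ e : ℕ, ∃ y : A5 ℤ, x = zs (3 ^ e) y) : x = 0 := by
  have key : ∀ f : A5 ℤ → ℤ, (∀ n y, f (zs n y) = n * f y) → f x = 0 := by
    intro f hf
    apply int_eq_zero_of_pow_dvd
    intro e
    obtain ⟨y, hy⟩ := h e
    exact ⟨f y, by rw [hy, hf]⟩
  ext
  · exact key (fun p => p.l0.c0) fun _ _ => rfl
  · exact key (fun p => p.l0.c1) fun _ _ => rfl
  · exact key (fun p => p.l0.c2) fun _ _ => rfl
  · exact key (fun p => p.l0.c3) fun _ _ => rfl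
  · exact key (fun p => p.l1.c0) fun _ _ => rfl
  · exact key (fun p => p.l1.c1) fun _ _ => rfl
  · exact key (fun p => p.l1.c2) fun _ _ => rfl
  · exact key (fun p => p.l1.c3) fun _ _ => rfl
  · exact key (fun p => p.l2.c0) fun _ _ => rfl
  · exact key (fun p => p.l2.c1) fun _ _ => rfl
  · exact key (fun p => p.l2.c2) fun _ _ => rfl
  · exact key (fun p => p.l2.c3) fun _ _ => rfl
  · exact key (fun p => p.l3.c0) fun _ _ => rfl
  · exact key (fun p => p.l3.c1) fun _ _ => rfl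
  · exact key (fun p => p.l3.c2) fun _ _ => rfl
  · exact key (fun p => p.l3.c3) fun _ _ => rfl

/-- an element of `O` divisible by all powers of 3 is zero. -/
theorem O_eq_zero {x : A5 ℚ} (hx : x ∈ O) (h : ∀ e : ℕ, ∃ y ∈ O, x = 3 ^ e * y) : x = 0 := by
  obtain ⟨n, hn⟩ := hx
  have h0 : lin n = 0 := by
    apply a5_eq_zero
    intro e
    obtain ⟨y, ⟨m, hm⟩, hy⟩ := h e
    refine ⟨lin m, ?_⟩
    apply toQ_injective
    rw [zs_eq, map_mul, ← hm, ← hn, hy]
    have h3 : toQ ((3 ^ e : ℤ) : A5 ℤ) = 3 ^ e := by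
      push_cast
      rw [map_pow, map_ofNat]
    rw [h3, ← mul_assoc, ← mul_assoc]
    congr 1
    rw [three_comm]
  rw [h0, map_zero] at hn
  apply natCast_mul_eq_zero (n := 45) (by norm_num)
  push_cast
  exact hn

theorem coe_three_pow_mul (e : ℕ) (y : O) : ((3 ^ e * y : O) : A5 ℚ) = 3 ^ e * (y : A5 ℚ) := by
  have h : O.subtype (3 ^ e * y) = 3 ^ e * O.subtype y := by
    rw [map_mul, map_pow, map_ofNat]
  exact h

theorem red_aux {R : Type*} [Ring R] (x : R) (hex : ∃ e : ℕ, ¬ ∃ y : R, x = 3 ^ (e + 1) * y) :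
    ∃ (e : ℕ) (y : R), x = 3 ^ e * y ∧ ¬ ∃ z, y = 3 * z := by
  classical
  obtain ⟨e, he, hmin⟩ : ∃ e : ℕ, (¬ ∃ y : R, x = 3 ^ (e + 1) * y) ∧
      ∀ e' < e, ∃ y : R, x = 3 ^ (e' + 1) * y :=
    ⟨Nat.find hex, Nat.find_spec hex, fun e' h' => not_not.1 (Nat.find_min hex h')⟩
  have hx2 : ∃ y : R, x = 3 ^ e * y := by
    rcases Nat.eq_zero_or_pos e with h0 | h0
    · subst h0; exact ⟨x, by simp⟩
    · obtain ⟨y, hy⟩ := hmin (e - 1) (by omega)
      rw [Nat.sub_add_cancel h0] at hy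
      exact ⟨y, hy⟩
  obtain ⟨y, hy⟩ := hx2
  refine ⟨e, y, hy, ?_⟩
  rintro ⟨z, hz⟩
  exact he ⟨z, by rw [hy, hz, pow_succ, mul_assoc]⟩

theorem red3_O : Red3 O where
  tf := by
    intro x hx
    apply Subtype.ext
    have h1 : (3 : A5 ℚ) * x.1 = 0 := congrArg Subtype.val hx
    exact natCast_mul_eq_zero (n := 3) (by norm_num) (by push_cast; exact h1)
  tf2 := by
    intro x hx
    apply Subtype.ext
    have h1 : (2 : A5 ℚ) * x.1 = 0 := congrArg Subtype.val hx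
    exact natCast_mul_eq_zero (n := 2) (by norm_num) (by push_cast; exact h1)
  red := by
    intro x hx
    apply red_aux x
    by_contra hcon
    push Not at hcon
    apply hx
    apply Subtype.ext
    apply O_eq_zero x.2
    intro e
    obtain ⟨y, hy⟩ := hcon e
    rw [pow_succ, mul_assoc] at hy
    have h1 := congrArg Subtype.val hy
    rw [coe_three_pow_mul] at h1
    exact ⟨(3 * y : O).1, (3 * y : O).2, h1⟩

/-- the congruence condition `u ≡ 1` modulo `3 O`. -/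
def Cong3 (u : A5 ℚ) : Prop := ∃ b ∈ O, u - 1 = 3 * b

theorem Cong3.mem {u : A5 ℚ} (h : Cong3 u) : u ∈ O := by
  obtain ⟨b, hb, h1⟩ := h
  have h2 : u = 1 + 3 * b := by rw [← h1]; abel
  rw [h2]
  have h3 : (3 : A5 ℚ) ∈ O := by
    have : ((3 : ℕ) : A5 ℚ) ∈ O := natCast_mem O 3
    exact_mod_cast this
  exact add_mem (one_mem _) (mul_mem h3 hb)

theorem one_ne : (1 : A5 ℚ) ≠ 0 := fun h => one_ne_zero (congrArg (fun p : A5 ℚ => p.l0.c0) h)

/-- **torsion-freeness**. -/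
theorem cong3_torfree {u : A5 ℚ} (h : Cong3 u) {k : ℕ} (hk : 0 < k) (h1 : u ^ k = 1) :
    u = 1 := by
  obtain ⟨b, hb, h2⟩ := h
  have hu := Cong3.mem ⟨b, hb, h2⟩
  have := torfree red3_O hk (u := (⟨u, hu⟩ : O)) ⟨⟨b, hb⟩, Subtype.ext h2⟩ (Subtype.ext h1)
  exact congrArg Subtype.val this

theorem cong3_torfree' {u : A5 ℚ} (h : Cong3 u) {k : ℕ} (hk : 0 < k)
    (h1 : u ^ k = 1 ∨ u ^ k = -1) : u = 1 := by
  apply cong3_torfree h (k := k * 2) (by omega)
  rw [pow_mul]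
  rcases h1 with h1 | h1 <;> rw [h1] <;> simp

theorem map_injective (f : ℚ →+* ℝ) : Function.Injective (A5.map f) := by
  intro a b h
  have hf : Function.Injective f := f.injective
  have key : ∀ p q : L5 ℚ, L5.map f p = L5.map f q → p = q := by
    intro p q hpq
    ext
    · exact hf (congrArg L5.c0 hpq)
    · exact hf (congrArg L5.c1 hpq)
    · exact hf (congrArg L5.c2 hpq)
    · exact hf (congrArg L5.c3 hpq)
  ext1
  · exact key _ _ (congrArg A5.l0 h)
  · exact key _ _ (congrArg A5.l1 h)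
  · exact key _ _ (congrArg A5.l2 h)
  · exact key _ _ (congrArg A5.l3 h)

/-- torsion in the image of the representation. -/
theorem rep_torfree (f : ℚ →+* ℝ) (u : (A5 ℚ)ˣ) (hu : Cong3 u.1) {k : ℕ} (hk : 0 < k)
    (h : rep (Units.map (A5.map f).toMonoidHom u) ^ k = 1) : u = 1 := by
  rw [← map_pow, ← map_pow] at h
  have h1 := rep_ker _ h
  apply Units.ext
  apply cong3_torfree' hu hk
  rcases h1 with h1 | h1
  · left
    apply map_injective f
    rw [map_one, ← h1]; rfl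
  · right
    apply map_injective f
    rw [map_neg, map_one, ← h1]; rfl

/-- **the congruence subgroup is torsion-free**: a subgroup of the image of the units congruent
to 1 modulo `3 O` is torsion-free. -/
theorem torsionFree_of_cong3 (f : ℚ →+* ℝ) (Γ : Subgroup (GL (Fin (5 + 1)) ℝ))
    (hΓ : ∀ γ ∈ Γ, ∃ u : (A5 ℚ)ˣ, Cong3 u.1 ∧ γ = rep (Units.map (A5.map f).toMonoidHom u)) :
    TorsionFree Γ := by
  intro γ hγ k hk h
  obtain ⟨u, hu, rfl⟩ := hΓ γ hγ
  rw [rep_torfree f u hu hk h, map_one, map_one]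

end Pool.Agent.Helper65.FN
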