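import Pool.Agent.Helper65.FN.Assemble
import Pool.Agent.Helper65.FN.TorFree
import Pool.Agent.Helper74.TF.Defs
import Pool.Agent.Helper84.NG.HS
import Pool.Agent.Helper84.NG.Divis

/-!
# MP_0fb3e0: the assembly with the congruence subgroup `Gam0` of helper74 and the
non-existence of hypersurfaces (helper84)
-/

namespace Pool.Agent.Helper65.FN

open H77T2 Matrix Pool.Agent.Helper65.PK Pool.Agent.Helper74.TF

theorem cong3_of_mem_G0 {u : (A5 ℚ)ˣ} (h : u ∈ G0) : Cong3 u.1 := by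
  obtain ⟨b, hb, h1⟩ := (mem_G0.1 h).2
  exact ⟨b, hb, by rw [h1]; abel⟩

/-- **`Gam0` is torsion-free.** -/
theorem torsionFree_Gam0 : TorsionFree Gam0 := by
  apply torsionFree_of_cong3 (Rat.castHom ℝ)
  intro γ hγ
  obtain ⟨u, hu, rfl⟩ := mem_Gam0.1 hγ
  exact ⟨u, cong3_of_mem_G0 hu, rhoQ_eq_rep hu.1.2.2⟩

theorem toR_eq : Pool.Agent.Helper84.NG.toR = toR := by
  unfold Pool.Agent.Helper84.NG.toR toR
  rw [Subsingleton.elim (algebraMap ℚ ℝ) (Rat.castHom ℝ)]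

/-- no hypersurface in `H^5/Γ`, `Γ ≤ Gam0` cocompact. -/
theorem no_hypersurface_Gam0 {Γ : Subgroup (GL (Fin (5 + 1)) ℝ)} (hle : Γ ≤ Gam0)
    (hΓ : Γ ≤ IsomHyp 5) (hcoc : ∃ R : ℝ, ∀ x ∈ Hyp 5, ∃ γ ∈ Γ, (γ.1 *ᵥ x) 0 ≤ R)
    (hfin : ∀ C : ℝ, {γ : GL (Fin (5 + 1)) ℝ | γ ∈ Γ ∧ (γ.1 *ᵥ e0 5) 0 ≤ C}.Finite) :
    ¬ HasGeodesicHypersurface 4 Γ := by
  apply Pool.Agent.Helper84.NG.no_hypersurface_A5 Pool.Agent.Helper84.NG.inv_A5Q hΓ hcoc hfin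
  intro γ hγ
  rw [toR_eq]
  exact hrat (Gam0_le (hle hγ))

theorem Gam0_relIndex (hG0 : (G0.subgroupOf OU).FiniteIndex) : Gam0.relIndex H1 ≠ 0 := by
  have hsurj : Function.Surjective (rhoQ.subgroupMap OU) := rhoQ.subgroupMap_surjective OU
  have h1 : ((G0.subgroupOf OU).map (rhoQ.subgroupMap OU)).index ∣ (G0.subgroupOf OU).index :=
    Subgroup.index_map_dvd _ hsurj
  have h2 : (G0.subgroupOf OU).map (rhoQ.subgroupMap OU) ≤
      (G0.map rhoQ).subgroupOf (OU.map rhoQ) := by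
    rintro _ ⟨u, hu, rfl⟩
    exact ⟨u.1, hu, rfl⟩
  have h3 := Subgroup.index_dvd_of_le h2
  exact fun h0 => hG0.index_ne_zero (Nat.eq_zero_of_zero_dvd (h0 ▸ (h3.trans h1)))

/-- **the assembly.** `H` contains `H1` (the image of the units of `O`) with finite index,
`Gam ≤ H` is cocompact and large. -/
theorem not_question' {H Gam : Subgroup (GL (Fin (5 + 1)) ℝ)} (hH : H ≤ IsomHyp 5)
    (hfin : ∀ C : ℝ, {γ : GL (Fin (5 + 1)) ℝ | γ ∈ H ∧ (γ.1 *ᵥ e0 5) 0 ≤ C}.Finite)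
    (hidx1 : H1.relIndex H ≠ 0) (hG0 : (G0.subgroupOf OU).FiniteIndex)
    (hGam : Gam ≤ H)
    (hcoc : ∃ R : ℝ, ∀ x ∈ Hyp 5, ∃ γ ∈ Gam, (γ.1 *ᵥ x) 0 ≤ R)
    (hlarge : ∃ K : Subgroup Gam, K.index ≠ 0 ∧
      ∃ ψ : K →* FreeGroup (Fin 2), Function.Surjective ψ) : ¬ Question := by
  have hidx : Gam0.relIndex H ≠ 0 :=
    Subgroup.relIndex_ne_zero_trans (Gam0_relIndex hG0) hidx1
  exact not_question hH hfin hidx torsionFree_Gam0 hGam hcoc hlarge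
    fun Γ hle hI hc hf => no_hypersurface_Gam0 hle hI hc hf

end Pool.Agent.Helper65.FN
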