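import Pool.Agent.Helper65.L1.Bound
import Pool.Agent.Helper77.T2.MTab

/-!
# MP_0fb3e0: Boolean certificates over `ℚ(√6)` for facets, ridges, cycles, boundedness
-/

namespace Pool.Agent.Helper65.FN

open H77T2 Pool.Agent.Helper65.L1 Module Matrix

/-- `p 0 ∧ ... ∧ p (n-1)` -/
def allN (p : ℕ → Bool) : ℕ → Bool
  | 0 => true
  | n + 1 => p n && allN p n

theorem allN_spec {p : ℕ → Bool} {n : ℕ} (h : allN p n = true) : ∀ i < n, p i = true := by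
  induction n with
  | zero => intro i hi; omega
  | succ n ih =>
    unfold allN at h
    rw [Bool.and_eq_true] at h
    intro i hi
    rcases Nat.lt_succ_iff_lt_or_eq.1 hi with h1 | h1
    · exact ih h.2 i h1
    · rw [h1]; exact h.1

variable {G : Type*} [Group G] {D : WD (Fin 6 → ℝ) G (Fin 52)}

/-- the data are given by the tables -/
structure IsTab (D : WD (Fin 6 → ℝ) G (Fin 52)) : Prop where
  B : ∀ v w, D.B v w = B6 v w
  x0 : D.x0 = o6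
  n : ∀ w : Fin 52, D.n w = (nv w).toR

theorem IsTab.N (h : IsTab D) (w : Fin 52) (q : V6) :
    D.N w q.toR = Q6.toR (V6.B q (nv w)) := by
  show D.B q.toR (D.n w) = _
  rw [h.B, h.n, V6.toR_B]

theorem IsTab.P (h : IsTab D) (q : V6) : D.P q.toR = Q6.toR (V6.B q ov) := by
  show D.B q.toR D.x0 = _
  rw [h.B, h.x0, V6.toR_B, ov_toR]

/-! ### facets -/

/-- the check of the facet `s` with witness `q` -/
def chkFacet (s : ℕ) (q : V6) : Bool :=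
  (V6.B q ov).ps && decide (V6.B q (nv s) = 0) &&
    allN (fun w => w == s || (V6.B q (nv w)).ps) 52

theorem IsTab.facet (h : IsTab D) {s : Fin 52} {q : V6} (hc : chkFacet s q = true) :
    IsFacet D.N D.P s := by
  unfold chkFacet at hc
  rw [Bool.and_eq_true, Bool.and_eq_true] at hc
  obtain ⟨⟨h1, h2⟩, h3⟩ := hc
  refine ⟨q.toR, ?_, ?_, ?_⟩
  · rw [h.P]; exact Q6.pos_of_ps h1
  · rw [h.N, of_decide_eq_true h2, map_zero]
  · intro w hw
    rw [h.N]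
    have h4 := allN_spec h3 w w.2
    rw [Bool.or_eq_true] at h4
    rcases h4 with h4 | h4
    · exact absurd (Fin.ext (by simpa using h4)) hw
    · exact Q6.pos_of_ps h4

theorem nv_inj : ∀ w w' : Fin 52, nv w = nv w' → w = w' := by decide +kernel

theorem IsTab.n_inj (h : IsTab D) : Function.Injective D.n := by
  intro w w' hw
  rw [h.n, h.n] at hw
  exact nv_inj w w' (V6.toR_injective hw)

/-- the wall `w` is the image of its representative -/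
theorem rep_rel (S : Setup G) (w : Fin 52) :
    S.q (wu w) * S.K (wrep (wm w)) = S.K w * S.q (wu w) := by
  rw [Setup.K_rep]
  show _ = S.q (wu w) * S.k (wm w) * (S.q (wu w))⁻¹ * S.q (wu w)
  group

/-- all facets from the representatives -/
theorem IsTab.facets (h : IsTab D) (S : Setup G) (hK : ∀ w, D.K w = S.K w)
    (hE : ∀ u, S.q u ∈ D.E0) (q : Fin 5 → V6)
    (hc : ∀ m : Fin 5, chkFacet (wrep m) (q m) = true) : ∀ w, IsFacet D.N D.P w := by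
  intro w
  refine D.facet_conj h.n_inj (hE (wu w)) (hE (wu w)) ?_ (h.facet (hc (wm w)))
  rw [hK, hK]
  exact rep_rel S w

/-- the walls do not contain the base point -/
theorem IsTab.int (h : IsTab D) (hc : allN (fun w => (V6.B ov (nv w)).ps) 52 = true) :
    ∀ w, 0 < D.N w D.x0 := by
  intro w
  have h1 : D.x0 = ov.toR := by rw [h.x0, ov_toR]
  rw [h1, h.N]
  exact Q6.pos_of_ps (allN_spec hc w w.2)

/-! ### linear combinations of the normals -/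

/-- `∑ c_w n_w` -/
def comb : List (ℕ × Q6) → V6
  | [] => V6.zero
  | p :: l => V6.axpy p.2 (nv p.1) (comb l)

/-- all indices are walls and all coefficients are nonnegative -/
def okL (l : List (ℕ × Q6)) : Bool := l.all fun p => decide (p.1 < 52) && p.2.nn

theorem IsTab.comb_eq (h : IsTab D) {l : List (ℕ × Q6)} (hl : ∀ p ∈ l, p.1 < 52)
    (x : Fin 6 → ℝ) : D.B x (comb l).toR =
      (l.attach.map fun p => Q6.toR p.1.2 * D.N ⟨p.1.1, hl p.1 p.2⟩ x).sum := by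
  induction l with
  | nil => simp [comb, V6.toR_zero]
  | cons p l ih =>
    rw [comb, V6.toR_axpy, map_add, map_smul, smul_eq_mul,
      ih (fun p' hp' => hl p' (List.mem_cons_of_mem _ hp'))]
    simp only [List.attach_cons, List.map_cons, List.sum_cons, List.map_map]
    congr 1
    have := h.n ⟨p.1, hl p List.mem_cons_self⟩
    show _ * D.B x _ = _ * D.B x (D.n _)
    rw [this]

theorem okL_spec {l : List (ℕ × Q6)} (h : okL l = true) :
    (∀ p ∈ l, p.1 < 52) ∧ ∀ p ∈ l, 0 ≤ Q6.toR p.2 := by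
  unfold okL at h
  rw [List.all_eq_true] at h
  constructor
  · intro p hp
    have h1 := h p hp
    rw [Bool.and_eq_true] at h1
    exact of_decide_eq_true h1.1
  · intro p hp
    have h1 := h p hp
    rw [Bool.and_eq_true] at h1
    exact Q6.nonneg_of_nn h1.2

/-- nonnegativity of the combination on the cone -/
theorem IsTab.comb_nonneg (h : IsTab D) {l : List (ℕ × Q6)} (hl : okL l = true)
    {x : Fin 6 → ℝ} (hx : ∀ p ∈ l, ∀ hp : p.1 < 52, 0 ≤ D.N ⟨p.1, hp⟩ x) :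
    0 ≤ D.B x (comb l).toR := by
  obtain ⟨h1, h2⟩ := okL_spec hl
  rw [h.comb_eq h1]
  apply List.sum_nonneg
  intro a ha
  rw [List.mem_map] at ha
  obtain ⟨p, -, rfl⟩ := ha
  exact mul_nonneg (h2 p.1 p.2) (hx _ p.2 _)

theorem IsTab.comb_pos (h : IsTab D) {l : List (ℕ × Q6)} (hl : okL l = true)
    {x : Fin 6 → ℝ} (hx : ∀ p ∈ l, ∀ hp : p.1 < 52, 0 ≤ D.N ⟨p.1, hp⟩ x)
    (hpos : ∃ p ∈ l, ∃ hp : p.1 < 52, 0 < Q6.toR p.2 ∧ 0 < D.N ⟨p.1, hp⟩ x) :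
    0 < D.B x (comb l).toR := by
  induction l with
  | nil => obtain ⟨p, hp, -⟩ := hpos; simp at hp
  | cons p l ih =>
    have hl' : okL l = true := by
      unfold okL at hl ⊢
      rw [List.all_cons, Bool.and_eq_true] at hl
      exact hl.2
    obtain ⟨h1, h2⟩ := okL_spec hl
    rw [comb, V6.toR_axpy, map_add, map_smul, smul_eq_mul]
    have hp52 := h1 p List.mem_cons_self
    have e : D.B x (nv p.1).toR = D.N ⟨p.1, hp52⟩ x := by
      show _ = D.B x (D.n _)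
      rw [h.n]
    rw [e]
    have h3 : ∀ p ∈ l, ∀ hp : p.1 < 52, 0 ≤ D.N ⟨p.1, hp⟩ x :=
      fun p' hp' => hx p' (List.mem_cons_of_mem _ hp')
    have h4 := h.comb_nonneg hl' h3
    have h5 : 0 ≤ Q6.toR p.2 * D.N ⟨p.1, hp52⟩ x :=
      mul_nonneg (h2 p List.mem_cons_self) (hx p List.mem_cons_self _)
    obtain ⟨p', hp', hp'52, h6, h7⟩ := hpos
    rcases List.mem_cons.1 hp' with rfl | hp''
    · have := mul_pos h6 h7
      linarith
    · have := ih hl' h3 ⟨p', hp'', hp'52, h6, h7⟩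
      linarith

/-- the check of a Farkas certificate: `∑ c_w n_w = a n_s + b n_t - κ x0` -/
def chkFarkas (s t : ℕ) (l : List (ℕ × Q6)) (a b κ : Q6) : Bool :=
  okL l && κ.nn &&
    decide (V6.axpy κ ov (comb l) = V6.axpy a (nv s) (V6.smul b (nv t))) &&
    (κ.ps || l.any fun p => p.1 != s && p.1 != t && p.2.ps)

theorem IsTab.not_ridge (h : IsTab D) {s t : Fin 52} {l : List (ℕ × Q6)} {a b κ : Q6}
    (hc : chkFarkas s t l a b κ = true) : ¬ IsRidge D.N D.P s t := by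
  unfold chkFarkas at hc
  simp only [Bool.and_eq_true] at hc
  obtain ⟨⟨⟨hl, hκ⟩, heq⟩, hpos⟩ := hc
  rintro ⟨q, hP, hs, ht, hq⟩
  have h1 := congrArg (fun v : V6 => D.B q v.toR) (of_decide_eq_true heq)
  simp only [V6.toR_axpy, V6.toR_smul, map_add, map_smul, smul_eq_mul] at h1
  have e1 : D.B q ov.toR = D.P q := by rw [ov_toR, ← h.x0]; rfl
  have e2 : ∀ w : Fin 52, D.B q (nv w).toR = D.N w q := by
    intro w
    rw [← h.n]; rfl
  rw [e1, e2, e2, hs, ht, mul_zero, mul_zero, add_zero] at h1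
  have hnn : ∀ p ∈ l, ∀ hp : p.1 < 52, 0 ≤ D.N ⟨p.1, hp⟩ q := by
    intro p _ hp
    by_cases hps : (⟨p.1, hp⟩ : Fin 52) = s
    · rw [hps, hs]
    · by_cases hpt : (⟨p.1, hp⟩ : Fin 52) = t
      · rw [hpt, ht]
      · exact (hq _ hps hpt).le
  have h2 := h.comb_nonneg hl hnn
  have h3 := Q6.nonneg_of_nn hκ
  rw [Bool.or_eq_true] at hpos
  rcases hpos with h4 | h4
  · have h5 := mul_pos (Q6.pos_of_ps h4) hP
    linarith
  · rw [List.any_eq_true] at h4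
    obtain ⟨p, hp, h5⟩ := h4
    simp only [Bool.and_eq_true, bne_iff_ne, ne_eq] at h5
    have hp52 := (okL_spec hl).1 p hp
    have h6 := h.comb_pos hl hnn ⟨p, hp, hp52, Q6.pos_of_ps h5.2,
      hq _ (fun hh => h5.1.1 (congrArg Fin.val hh)) (fun hh => h5.1.2 (congrArg Fin.val hh))⟩
    have h7 := mul_nonneg h3 hP.le
    linarith

/-! ### cones and cycles -/

/-- the check that `v - x0 = α n_s + β n_t` -/
def chkCone (s t : ℕ) (v : V6) (α β : Q6) : Bool :=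
  α.nn && β.nn && (α + β).ps &&
    decide (v = V6.axpy α (nv s) (V6.axpy β (nv t) ov))

theorem inCone_of_chk {G' : Type*} [Group G'] {D' : WD (Fin 6 → ℝ) G' (Fin 52)}
    (h : IsTab D') {s t : Fin 52} {a : G'} {v : V6} (hv : D'.ρ a D'.x0 = v.toR) {α β : Q6}
    (hc : chkCone s t v α β = true) : D'.InCone s t a := by
  unfold chkCone at hc
  simp only [Bool.and_eq_true] at hc
  obtain ⟨⟨⟨h1, h2⟩, h3⟩, h4⟩ := hc
  refine ⟨Q6.toR α, Q6.toR β, Q6.nonneg_of_nn h1, Q6.nonneg_of_nn h2, ?_, ?_⟩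
  · rw [← map_add]; exact Q6.pos_of_ps h3
  · rw [hv, of_decide_eq_true h4, V6.toR_axpy, V6.toR_axpy, h.n, h.n, ov_toR, h.x0]
    abel

/-! ### positivity -/

theorem IsTab.P_nonneg (h : IsTab D) {l : List (ℕ × Q6)} (hl : okL l = true)
    (heq : comb l = ov) {x : Fin 6 → ℝ} (hx : ∀ w, 0 ≤ D.N w x) : 0 ≤ D.P x := by
  have h1 := h.comb_nonneg hl (x := x) fun p _ hp => hx _
  rw [heq, ov_toR, ← h.x0] at h1
  exact h1

/-! ### boundedness -/

/-- the Gram vector: `B6 (x, y) = x ⬝ gram y` -/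
def gram (y : V6) : V6 :=
  ⟨y.c0, -(5 * y.c1),
    ⟨0, 3⟩ * (⟨1 / 2, 0⟩ * (y.c3 + y.c4 + y.c5) - 2 * y.c2),
    ⟨0, 3⟩ * (⟨1 / 2, 0⟩ * (y.c2 + y.c4 + y.c5) - 2 * y.c3),
    ⟨0, 3⟩ * (⟨1 / 2, 0⟩ * (y.c2 + y.c3 + y.c5) - 2 * y.c4),
    ⟨0, 3⟩ * (⟨1 / 2, 0⟩ * (y.c2 + y.c3 + y.c4) - 2 * y.c5)⟩

theorem gram_toR (y : V6) (x : Fin 6 → ℝ) : B6 x y.toR = x ⬝ᵥ (gram y).toR := by
  have h : Q6.toR ⟨1 / 2, 0⟩ = 1 / 2 := by rw [Q6.toR_mk]; norm_num
  unfold B6 gram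
  simp only [dotProduct, Fin.sum_univ_six, V6.toR, map_sub, map_mul, map_add, map_neg,
    Q6.toR_s54, map_ofNat, h, Matrix.cons_val_zero, Matrix.cons_val_one, Matrix.cons_val]
  ring

/-- `c a bᵀ + A` -/
def rank1 (c : Q6) (a b : V6) (A : M6) : M6 :=
  ⟨V6.axpy (c * a.c0) b A.r0, V6.axpy (c * a.c1) b A.r1, V6.axpy (c * a.c2) b A.r2,
    V6.axpy (c * a.c3) b A.r3, V6.axpy (c * a.c4) b A.r4, V6.axpy (c * a.c5) b A.r5⟩

theorem toR_rank1 (c : Q6) (a b : V6) (A : M6) (i : Fin 6) :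
    (rank1 c a b A).toR i = (Q6.toR c * a.toR i) • b.toR + A.toR i := by
  have key : ∀ (r : V6) (t : Q6),
      (V6.axpy (c * t) b r).toR = (Q6.toR c * Q6.toR t) • b.toR + r.toR := by
    intro r t
    rw [V6.toR_axpy, map_mul]
  fin_cases i
  · exact key A.r0 a.c0
  · exact key A.r1 a.c1
  · exact key A.r2 a.c2
  · exact key A.r3 a.c3
  · exact key A.r4 a.c4
  · exact key A.r5 a.c5

theorem quad_rank1 (c : Q6) (a b : V6) (A : M6) (x : Fin 6 → ℝ) :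
    x ⬝ᵥ ((rank1 c a b A).toR *ᵥ x) =
      Q6.toR c * ((x ⬝ᵥ a.toR) * (x ⬝ᵥ b.toR)) + x ⬝ᵥ (A.toR *ᵥ x) := by
  have h1 : ∀ i, ((rank1 c a b A).toR *ᵥ x) i =
      Q6.toR c * (x ⬝ᵥ b.toR) * a.toR i + (A.toR *ᵥ x) i := by
    intro i
    show (rank1 c a b A).toR i ⬝ᵥ x = _
    rw [toR_rank1, add_dotProduct, smul_dotProduct, dotProduct_comm b.toR x, smul_eq_mul]
    show _ = _ + A.toR i ⬝ᵥ x
    ring
  have h2 : (rank1 c a b A).toR *ᵥ x = (Q6.toR c * (x ⬝ᵥ b.toR)) • a.toR + A.toR *ᵥ x := by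
    funext i
    rw [h1, Pi.add_apply, Pi.smul_apply, smul_eq_mul]
  rw [h2, dotProduct_add, dotProduct_smul, smul_eq_mul]
  ring

/-- the matrix of the form -/
def gramM : M6 :=
  ⟨gram ⟨1, 0, 0, 0, 0, 0⟩, gram ⟨0, 1, 0, 0, 0, 0⟩, gram ⟨0, 0, 1, 0, 0, 0⟩,
    gram ⟨0, 0, 0, 1, 0, 0⟩, gram ⟨0, 0, 0, 0, 1, 0⟩, gram ⟨0, 0, 0, 0, 0, 1⟩⟩

theorem quad_gramM (x : Fin 6 → ℝ) : x ⬝ᵥ (gramM.toR *ᵥ x) = B6 x x := by
  have h : Q6.toR ⟨1 / 2, 0⟩ = 1 / 2 := by rw [Q6.toR_mk]; norm_num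
  unfold B6 gramM
  simp only [mulVec, dotProduct, Fin.sum_univ_six, M6.toR, gram, V6.toR, map_sub, map_mul,
    map_add, map_neg, Q6.toR_s54, map_ofNat, h, map_zero, map_one, Matrix.cons_val_zero,
    Matrix.cons_val_one, Matrix.cons_val]
  ring

/-- antisymmetric -/
def antis (A : M6) : Bool :=
  decide (A.r0.c0 = 0) && decide (A.r1.c1 = 0) && decide (A.r2.c2 = 0) &&
  decide (A.r3.c3 = 0) && decide (A.r4.c4 = 0) && decide (A.r5.c5 = 0) &&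
  decide (A.r0.c1 + A.r1.c0 = 0) && decide (A.r0.c2 + A.r2.c0 = 0) &&
  decide (A.r0.c3 + A.r3.c0 = 0) && decide (A.r0.c4 + A.r4.c0 = 0) &&
  decide (A.r0.c5 + A.r5.c0 = 0) && decide (A.r1.c2 + A.r2.c1 = 0) &&
  decide (A.r1.c3 + A.r3.c1 = 0) && decide (A.r1.c4 + A.r4.c1 = 0) &&
  decide (A.r1.c5 + A.r5.c1 = 0) && decide (A.r2.c3 + A.r3.c2 = 0) &&
  decide (A.r2.c4 + A.r4.c2 = 0) && decide (A.r2.c5 + A.r5.c2 = 0) &&
  decide (A.r3.c4 + A.r4.c3 = 0) && decide (A.r3.c5 + A.r5.c3 = 0) &&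
  decide (A.r4.c5 + A.r5.c4 = 0)

theorem quad_antis {A : M6} (h : antis A = true) (x : Fin 6 → ℝ) :
    x ⬝ᵥ (A.toR *ᵥ x) = 0 := by
  unfold antis at h
  simp only [Bool.and_eq_true, decide_eq_true_eq] at h
  obtain ⟨⟨⟨⟨⟨⟨⟨⟨⟨⟨⟨⟨⟨⟨⟨⟨⟨⟨⟨⟨h0, h1⟩, h2⟩, h3⟩, h4⟩, h5⟩, h01⟩, h02⟩, h03⟩, h04⟩, h05⟩,
    h12⟩, h13⟩, h14⟩, h15⟩, h23⟩, h24⟩, h25⟩, h34⟩, h35⟩, h45⟩ := h
  have k : ∀ {a b : Q6}, a + b = 0 → Q6.toR a + Q6.toR b = 0 := fun h => by
    rw [← map_add, h, map_zero]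
  have k0 : ∀ {a : Q6}, a = 0 → Q6.toR a = 0 := fun h => by rw [h, map_zero]
  simp only [mulVec, dotProduct, Fin.sum_univ_six, M6.toR, V6.toR, Matrix.cons_val_zero,
    Matrix.cons_val_one, Matrix.cons_val]
  linear_combination (x 0 * x 0) * k0 h0 + (x 1 * x 1) * k0 h1 + (x 2 * x 2) * k0 h2 +
    (x 3 * x 3) * k0 h3 + (x 4 * x 4) * k0 h4 + (x 5 * x 5) * k0 h5 +
    (x 0 * x 1) * k h01 + (x 0 * x 2) * k h02 + (x 0 * x 3) * k h03 + (x 0 * x 4) * k h04 +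
    (x 0 * x 5) * k h05 + (x 1 * x 2) * k h12 + (x 1 * x 3) * k h13 + (x 1 * x 4) * k h14 +
    (x 1 * x 5) * k h15 + (x 2 * x 3) * k h23 + (x 2 * x 4) * k h24 + (x 2 * x 5) * k h25 +
    (x 3 * x 4) * k h34 + (x 3 * x 5) * k h35 + (x 4 * x 5) * k h45

/-- `A - ∑ c g(n_u) g(n_v)ᵀ` -/
def subQ : List (Q6 × ℕ × ℕ) → M6 → M6
  | [], A => A
  | p :: l, A => rank1 (-p.1) (gram (nv p.2.1)) (gram (nv p.2.2)) (subQ l A)

/-- all indices are walls and all coefficients are nonnegative -/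
def okQ (l : List (Q6 × ℕ × ℕ)) : Bool :=
  l.all fun p => p.1.nn && decide (p.2.1 < 52) && decide (p.2.2 < 52)

theorem IsTab.quad_subQ (h : IsTab D) {l : List (Q6 × ℕ × ℕ)} (hl : okQ l = true) (A : M6)
    {x : Fin 6 → ℝ} (hx : ∀ w, 0 ≤ D.N w x) :
    x ⬝ᵥ ((subQ l A).toR *ᵥ x) ≤ x ⬝ᵥ (A.toR *ᵥ x) := by
  induction l with
  | nil => exact le_rfl
  | cons p l ih =>
    have hl2 := hl
    unfold okQ at hl2
    rw [List.all_cons, Bool.and_eq_true, Bool.and_eq_true, Bool.and_eq_true] at hl2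
    obtain ⟨⟨⟨h1, h2⟩, h3⟩, h4⟩ := hl2
    have h2' : p.2.1 < 52 := of_decide_eq_true h2
    have h3' : p.2.2 < 52 := of_decide_eq_true h3
    have e : ∀ w : Fin 52, x ⬝ᵥ (gram (nv w)).toR = D.N w x := by
      intro w
      rw [← gram_toR, ← h.B, ← h.n]; rfl
    have e1 := e ⟨p.2.1, h2'⟩
    have e2 := e ⟨p.2.2, h3'⟩
    simp only [] at e1 e2
    rw [subQ, quad_rank1, e1, e2, map_neg]
    have h5 := Q6.nonneg_of_nn h1
    have h6 := mul_nonneg h5 (mul_nonneg (hx ⟨p.2.1, h2'⟩) (hx ⟨p.2.2, h3'⟩))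
    have h7 := ih h4
    linarith

/-- the check of the certificate on the wall `s`:
`B = ∑ c N_u N_v + ε P² + N_s B(·, y)` -/
def chkQ (s : ℕ) (l : List (Q6 × ℕ × ℕ)) (ε : Q6) (y : V6) : Bool :=
  okQ l && antis (rank1 (-1) (gram (nv s)) (gram y) (rank1 (-ε) (gram ov) (gram ov)
    (subQ l gramM)))

theorem IsTab.inC (h : IsTab D) {s : Fin 52} {l : List (Q6 × ℕ × ℕ)} {ε : Q6} {y : V6}
    (hc : chkQ s l ε y = true) {R : ℝ} (hR : 1 ≤ R ^ 2 * Q6.toR ε)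
    (hP : ∀ x, (∀ w, 0 ≤ D.N w x) → 0 ≤ D.P x) :
    ∀ x, D.N s x = 0 → (∀ w, 0 ≤ D.N w x) → InC D.B D.P R x := by
  intro x hs hx
  unfold chkQ at hc
  rw [Bool.and_eq_true] at hc
  have h1 := quad_antis hc.2 x
  have e : ∀ w : Fin 52, x ⬝ᵥ (gram (nv w)).toR = D.N w x := by
    intro w
    rw [← gram_toR, ← h.B, ← h.n]; rfl
  have eP : x ⬝ᵥ (gram ov).toR = D.P x := by
    rw [← gram_toR, ← h.B, ov_toR, ← h.x0]; rfl
  rw [quad_rank1, quad_rank1, e, eP, hs, zero_mul, mul_zero, zero_add, map_neg] at h1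
  have h2 := h.quad_subQ hc.1 gramM hx
  rw [quad_gramM, ← h.B] at h2
  apply inC_of_ge hR (hP x hx)
  rw [sq]
  linarith

theorem B6_comm (v w : Fin 6 → ℝ) : B6 v w = B6 w v := by
  unfold B6; ring

theorem B6_o6 : B6 o6 o6 = 1 := by
  simp [B6, o6]

/-- boundedness from the representatives of the walls -/
theorem IsTab.bounded (h : IsTab D) (S : Setup G) (hK : ∀ w, D.K w = S.K w)
    (hE : ∀ u, S.q u ∈ D.E0) (hint : ∀ w, 0 < D.N w D.x0)
    (hP : ∀ x, (∀ w, 0 ≤ D.N w x) → 0 ≤ D.P x)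
    (l : Fin 5 → List (Q6 × ℕ × ℕ)) (ε : Fin 5 → Q6) (y : Fin 5 → V6)
    (hc : ∀ m : Fin 5, chkQ (wrep m) (l m) (ε m) (y m) = true) {R : ℝ} (hR : 1 ≤ R)
    (hε : ∀ m, 1 ≤ R ^ 2 * Q6.toR (ε m)) :
    ∀ x : Fin 6 → ℝ, (∀ w, 0 ≤ D.N w x) → InC D.B D.P R x := by
  intro x hx
  refine inC_of_walls (N := D.N) (B := D.B) (fun v w => ?_) (x0 := D.x0) ?_ hR hint ?_ hx
  · rw [h.B, h.B, B6_comm]
  · rw [h.B, h.x0, B6_o6]
  · intro w
    have h1 := h.inC (hc (wm w)) (hε (wm w)) hP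
    have h2 := inC_conj D (hE (wu w)) (hE (wu w)) (s := wrep (wm w)) (s' := w)
      (by rw [hK, hK]; exact rep_rel S w) h1
    exact h2

end Pool.Agent.Helper65.FN
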