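import Pool.Agent.Helper65.FN.GamInst

/-!
# MP_0fb3e0: the example (existence form of the assembly)
-/

namespace Pool.Agent.Helper65.FN

open H77T2 Matrix Pool.Agent.Helper65.PK Pool.Agent.Helper74.TF Pool.Agent.Helper65.L1
  Pool.Agent.Helper84.NG

/-- the example from a cocompact, virtually large group `Gam ≤ H`. -/
theorem example_vl {H Gam : Subgroup (GL (Fin (5 + 1)) ℝ)} (hH : H ≤ IsomHyp 5)
    (hfin : ∀ C : ℝ, {γ : GL (Fin (5 + 1)) ℝ | γ ∈ H ∧ (γ.1 *ᵥ e0 5) 0 ≤ C}.Finite)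
    (hidx1 : H1.relIndex H ≠ 0) (hGam : Gam ≤ H)
    (hcoc : ∃ R : ℝ, ∀ x ∈ Hyp 5, ∃ γ ∈ Gam, (γ.1 *ᵥ x) 0 ≤ R)
    (hlarge : VirtuallyLarge Gam) :
    ∃ Γ : Subgroup (GL (Fin (5 + 1)) ℝ), IsLattice 5 Γ ∧ TorsionFree Γ ∧
      (∃ R : ℝ, ∀ x ∈ Hyp 5, ∃ γ ∈ Γ, (γ.1 *ᵥ x) 0 ≤ R) ∧ VirtuallyLarge Γ ∧
      ¬ HasGeodesicHypersurface 4 Γ := by
  have hG0 : (G0.subgroupOf OU).FiniteIndex :=
    Pool.Agent.Helper82.VL.finIdx_units OU G0 (fun u hu => ⟨hu.1, hu.2.1⟩)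
      (fun u hu h => ⟨hu, h⟩)
  have hidx : Gam0.relIndex H ≠ 0 :=
    Subgroup.relIndex_ne_zero_trans (Gam0_relIndex hG0) hidx1
  have hfi : (((Gam0 ⊓ Gam).subgroupOf Gam)).FiniteIndex := by
    refine ⟨?_⟩
    rw [Subgroup.inf_subgroupOf_right]
    have h1 : Gam0.relIndex Gam ≠ 0 := fun h0 =>
      hidx (Subgroup.relIndex_eq_zero_of_le_right hGam h0)
    exact h1
  have hle : Gam0 ⊓ Gam ≤ Gam := inf_le_right
  have hI : Gam ≤ IsomHyp 5 := hGam.trans hH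
  have hI' : Gam0 ⊓ Gam ≤ IsomHyp 5 := hle.trans hI
  have hfin' : ∀ C : ℝ, {γ : GL (Fin (5 + 1)) ℝ |
      γ ∈ Gam0 ⊓ Gam ∧ (γ.1 *ᵥ e0 5) 0 ≤ C}.Finite := fun C =>
    (hfin C).subset fun γ hγ => ⟨hGam (hle hγ.1), hγ.2⟩
  have hcoc' := cocompact_of_finiteIndex hI hfi hcoc
  have hV : VirtuallyLarge ↥(Gam0 ⊓ Gam) := by
    have h1 : VirtuallyLarge ((Gam0 ⊓ Gam).subgroupOf Gam) :=
      Pool.Agent.Helper82.VL.large_sub hlarge _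
    exact Pool.Agent.Helper82.VL.large_equiv (Subgroup.subgroupOfEquivOfLe hle).symm h1
  exact ⟨Gam0 ⊓ Gam, isLattice_of_cocompact hI' hcoc' hfin',
    fun γ hγ => torsionFree_Gam0 γ hγ.1, hcoc', hV,
    no_hypersurface_Gam0 inf_le_left hI' hcoc' hfin'⟩

variable {ι : Type} {D : WD (Fin 6 → ℝ) ↥(IsomHyp 5) ι}

/-- **from the instance to the example.** -/
theorem example_of_instance [Finite ι] {H : Subgroup (GL (Fin (5 + 1)) ℝ)}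
    (hH : H ≤ IsomHyp 5)
    (hfin : ∀ C : ℝ, {γ : GL (Fin (5 + 1)) ℝ | γ ∈ H ∧ (γ.1 *ᵥ e0 5) 0 ≤ C}.Finite)
    (hidx1 : H1.relIndex H ≠ 0)
    (hB : ∀ v w, D.B v w = B6 v w) (hρ : ∀ g v, CC (D.ρ g v) = g.1.1 *ᵥ CC v)
    (hx0 : D.x0 = o6) (hK : ∀ w, (D.K w).1 ∈ H) (hE0 : ∀ u ∈ D.E0, u.1 ∈ H)
    (hint : ∀ w, 0 < D.N w D.x0) (ha : ∀ w, IsFacet D.N D.P w)
    {R : ℝ} (hR : 0 ≤ R) (hbd : ∀ x : Fin 6 → ℝ, (∀ w, 0 ≤ D.N w x) → InC D.B D.P R x)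
    {X : Type} [Finite X] (L : D.Lab (WP X (GL (Fin 2) ℤ)))
    (hb : ∀ s t, s ≠ t → IsRidge D.N D.P s t → L.ext.Cyc s t) (i : X)
    (hA : ∃ p ∈ Subgroup.closure (Set.range L.f ∪ Set.range L.φ0),
      p.perm i = i ∧ p.lab i = Pool.Agent.Helper82.VL.aM)
    (hS : ∃ p ∈ Subgroup.closure (Set.range L.f ∪ Set.range L.φ0),
      p.perm i = i ∧ p.lab i = Pool.Agent.Helper82.VL.sM) :
    ∃ Γ : Subgroup (GL (Fin (5 + 1)) ℝ), IsLattice 5 Γ ∧ TorsionFree Γ ∧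
      (∃ R : ℝ, ∀ x ∈ Hyp 5, ∃ γ ∈ Γ, (γ.1 *ᵥ x) 0 ≤ R) ∧ VirtuallyLarge Γ ∧
      ¬ HasGeodesicHypersurface 4 Γ := by
  have hle : D.Gam.map (IsomHyp 5).subtype ≤ H := by
    rw [Subgroup.map_le_iff_le_comap, WD.Gam, Subgroup.closure_le]
    rintro g (⟨w, rfl⟩ | hg)
    · exact hK w
    · exact hE0 g hg
  let A := hypAct hfin hB hρ hx0 hint hle
  obtain ⟨φ, hφ1, hφ2⟩ := A.exists_hom L ha hb
  have hVL : VirtuallyLarge D.Gam := large_of_labels L φ hφ1 hφ2 i hA hS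
  have hVL' : VirtuallyLarge ↥(D.Gam.map (IsomHyp 5).subtype) :=
    Pool.Agent.Helper82.VL.large_equiv
      (D.Gam.equivMapOfInjective _ (Subgroup.subtype_injective _)).symm hVL
  refine example_vl hH hfin hidx1 hle ⟨R, fun x hx => ?_⟩ hVL'
  have hx' : A.Φ (CC.symm x) ∈ Hyp 5 := by
    show CC (CC.symm x) ∈ Hyp 5
    rwa [LinearEquiv.apply_symm_apply]
  obtain ⟨g, hg, h1⟩ := A.cocompact hR hbd hx'
  refine ⟨g.1, ⟨g, hg, rfl⟩, ?_⟩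
  have h2 : A.Φ (D.ρ g (CC.symm x)) = g.1.1 *ᵥ x := by
    show CC (D.ρ g (CC.symm x)) = _
    rw [hρ, LinearEquiv.apply_symm_apply]
  rwa [h2] at h1

/-- the example answers the question negatively. -/
theorem not_question_of_example
    (h : ∃ Γ : Subgroup (GL (Fin (5 + 1)) ℝ), IsLattice 5 Γ ∧ TorsionFree Γ ∧
      (∃ R : ℝ, ∀ x ∈ Hyp 5, ∃ γ ∈ Γ, (γ.1 *ᵥ x) 0 ≤ R) ∧ VirtuallyLarge Γ ∧
      ¬ HasGeodesicHypersurface 4 Γ) : ¬ Question := by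
  obtain ⟨Γ, h1, h2, -, h3, h4⟩ := h
  exact fun hQ => h4 ((hQ 4 (by norm_num) Γ h1 h2).1 h3)

end Pool.Agent.Helper65.FN
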