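import Pool.Agent.Helper65.FN.AssembleB
import Pool.Agent.Helper65.L1.Bound
import Pool.Agent.Helper82.VL.Large
import Pool.Agent.Helper82.VL.Idx

/-!
# MP_0fb3e0: from the instance of the polytope data to the negation of the question
-/

namespace Pool.Agent.Helper65.FN

open H77T2 Matrix Pool.Agent.Helper65.PK Pool.Agent.Helper74.TF Pool.Agent.Helper65.L1
  Pool.Agent.Helper84.NG

/-- the assembly with virtual largeness of `Gam`. -/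
theorem not_question_vl {H Gam : Subgroup (GL (Fin (5 + 1)) ℝ)} (hH : H ≤ IsomHyp 5)
    (hfin : ∀ C : ℝ, {γ : GL (Fin (5 + 1)) ℝ | γ ∈ H ∧ (γ.1 *ᵥ e0 5) 0 ≤ C}.Finite)
    (hidx1 : H1.relIndex H ≠ 0) (hGam : Gam ≤ H)
    (hcoc : ∃ R : ℝ, ∀ x ∈ Hyp 5, ∃ γ ∈ Gam, (γ.1 *ᵥ x) 0 ≤ R)
    (hlarge : VirtuallyLarge Gam) : ¬ Question := by
  intro hQ
  have hG0 : (G0.subgroupOf OU).FiniteIndex :=
    Pool.Agent.Helper82.VL.finIdx_units OU G0 (fun u hu => ⟨hu.1, hu.2.1⟩)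
      (fun u hu h => ⟨hu, h⟩)
  have hidx : Gam0.relIndex H ≠ 0 :=
    Subgroup.relIndex_ne_zero_trans (Gam0_relIndex hG0) hidx1
  have hfi : (((Gam0 ⊓ Gam).subgroupOf Gam)).FiniteIndex := by
    refine ⟨?_⟩
    rw [Subgroup.inf_subgroupOf_right]
    have h1 : Gam0.relIndex Gam ≠ 0 := fun h0 =>
      hidx (Subgroup.relIndex_eq_zero_of_le_right hGam h0)
    exact h1
  have hle : Gam0 ⊓ Gam ≤ Gam := inf_le_right
  have hI : Gam ≤ IsomHyp 5 := hGam.trans hH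
  have hI' : Gam0 ⊓ Gam ≤ IsomHyp 5 := hle.trans hI
  have hfin' : ∀ C : ℝ, {γ : GL (Fin (5 + 1)) ℝ |
      γ ∈ Gam0 ⊓ Gam ∧ (γ.1 *ᵥ e0 5) 0 ≤ C}.Finite := fun C =>
    (hfin C).subset fun γ hγ => ⟨hGam (hle hγ.1), hγ.2⟩
  have hcoc' := cocompact_of_finiteIndex hI hfi hcoc
  have hL := isLattice_of_cocompact hI' hcoc' hfin'
  have hT : TorsionFree (Gam0 ⊓ Gam) := fun γ hγ => torsionFree_Gam0 γ hγ.1
  have hV : VirtuallyLarge ↥(Gam0 ⊓ Gam) := by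
    have h1 : VirtuallyLarge ((Gam0 ⊓ Gam).subgroupOf Gam) :=
      Pool.Agent.Helper82.VL.large_sub hlarge _
    exact Pool.Agent.Helper82.VL.large_equiv (Subgroup.subgroupOfEquivOfLe hle).symm h1
  exact no_hypersurface_Gam0 inf_le_left hI' hcoc' hfin' ((hQ 4 (by norm_num) _ hL hT).1 hV)

/-- virtual largeness from the labels. -/
theorem large_of_labels {V ι G X : Type} [AddCommGroup V] [Module ℝ V] [Group G] [Finite X]
    {D : WD V G ι} (L : D.Lab (WP X (GL (Fin 2) ℤ))) (φ : D.Gam →* WP X (GL (Fin 2) ℤ))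
    (hK : ∀ w, φ ⟨D.K w, D.K_mem w⟩ = L.f w) (hE : ∀ u : D.E0, φ ⟨u, D.E0_le u.2⟩ = L.φ0 u)
    (i : X)
    (hA : ∃ p ∈ Subgroup.closure (Set.range L.f ∪ Set.range L.φ0),
      p.perm i = i ∧ p.lab i = Pool.Agent.Helper82.VL.aM)
    (hS : ∃ p ∈ Subgroup.closure (Set.range L.f ∪ Set.range L.φ0),
      p.perm i = i ∧ p.lab i = Pool.Agent.Helper82.VL.sM) :
    VirtuallyLarge D.Gam := by
  have hcl : Subgroup.closure (Set.range L.f ∪ Set.range L.φ0) ≤ φ.range := by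
    rw [Subgroup.closure_le]
    rintro p (⟨w, rfl⟩ | ⟨u, rfl⟩)
    · exact ⟨_, hK w⟩
    · exact ⟨_, hE u⟩
  obtain ⟨p, hp, hp1, hp2⟩ := hA
  obtain ⟨q, hq, hq1, hq2⟩ := hS
  obtain ⟨g1, rfl⟩ := hcl hp
  obtain ⟨g2, rfl⟩ := hcl hq
  exact Pool.Agent.Helper82.VL.large_of_cocycle (WP.permHom.comp φ) (fun g x => (φ g).lab x)
    (fun g h x => by rw [map_mul, WP.mul_lab]; rfl) i g1 g2 hp1 hp2 hq1 hq2

theorem e0_eq : CC o6 = e0 5 := by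
  funext i
  fin_cases i <;> simp [CC, o6, e0]

variable {ι : Type} {D : WD (Fin 6 → ℝ) ↥(IsomHyp 5) ι}

/-- the action on hyperbolic 5-space. -/
noncomputable def hypAct {H : Subgroup (GL (Fin (5 + 1)) ℝ)}
    (hfin : ∀ C : ℝ, {γ : GL (Fin (5 + 1)) ℝ | γ ∈ H ∧ (γ.1 *ᵥ e0 5) 0 ≤ C}.Finite)
    (hB : ∀ v w, D.B v w = B6 v w) (hρ : ∀ g v, CC (D.ρ g v) = g.1.1 *ᵥ CC v)
    (hx0 : D.x0 = o6) (hint : ∀ w, 0 < D.N w D.x0)
    (hle : D.Gam.map (IsomHyp 5).subtype ≤ H) : HypAct D D.Gam 5 where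
  Φ := CC
  isom v w := by rw [hB]; exact (CC_mink v w).symm
  base := by rw [hx0]; exact e0_eq
  hyp g _ v hv := by rw [hρ]; exact g.2.2 _ hv
  K_mem := D.K_mem
  E0_le := D.E0_le
  int := hint
  fin C := by
    refine ((hfin C).image fun γ => CC.symm (γ.1 *ᵥ e0 5)).subset ?_
    rintro v ⟨g, hg, rfl, hC⟩
    have h1 : CC (D.ρ g D.x0) = g.1.1 *ᵥ e0 5 := by rw [hρ, hx0, e0_eq]
    refine ⟨g.1, ⟨hle ⟨g, hg, rfl⟩, ?_⟩, ?_⟩
    · rw [hB, ← CC_mink, h1, hx0, e0_eq, mink_e0_left] at hC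
      exact hC
    · show CC.symm (g.1.1 *ᵥ e0 5) = _
      rw [← h1, LinearEquiv.symm_apply_apply]

/-- **from the instance to the negation of the question.** -/
theorem not_question_of_instance [Finite ι] {H : Subgroup (GL (Fin (5 + 1)) ℝ)}
    (hH : H ≤ IsomHyp 5)
    (hfin : ∀ C : ℝ, {γ : GL (Fin (5 + 1)) ℝ | γ ∈ H ∧ (γ.1 *ᵥ e0 5) 0 ≤ C}.Finite)
    (hidx1 : H1.relIndex H ≠ 0)
    (hB : ∀ v w, D.B v w = B6 v w) (hρ : ∀ g v, CC (D.ρ g v) = g.1.1 *ᵥ CC v)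
    (hx0 : D.x0 = o6) (hK : ∀ w, (D.K w).1 ∈ H) (hE0 : ∀ u ∈ D.E0, u.1 ∈ H)
    (hint : ∀ w, 0 < D.N w D.x0) (ha : ∀ w, IsFacet D.N D.P w)
    {R : ℝ} (hR : 0 ≤ R) (hbd : ∀ x : Fin 6 → ℝ, (∀ w, 0 ≤ D.N w x) → InC D.B D.P R x)
    {X : Type} [Finite X] (L : D.Lab (WP X (GL (Fin 2) ℤ)))
    (hb : ∀ s t, s ≠ t → IsRidge D.N D.P s t → L.ext.Cyc s t) (i : X)
    (hA : ∃ p ∈ Subgroup.closure (Set.range L.f ∪ Set.range L.φ0),
      p.perm i = i ∧ p.lab i = Pool.Agent.Helper82.VL.aM)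
    (hS : ∃ p ∈ Subgroup.closure (Set.range L.f ∪ Set.range L.φ0),
      p.perm i = i ∧ p.lab i = Pool.Agent.Helper82.VL.sM) : ¬ Question := by
  have hle : D.Gam.map (IsomHyp 5).subtype ≤ H := by
    rw [Subgroup.map_le_iff_le_comap, WD.Gam, Subgroup.closure_le]
    rintro g (⟨w, rfl⟩ | hg)
    · exact hK w
    · exact hE0 g hg
  let A := hypAct hfin hB hρ hx0 hint hle
  obtain ⟨φ, hφ1, hφ2⟩ := A.exists_hom L ha hb
  have hVL : VirtuallyLarge D.Gam := large_of_labels L φ hφ1 hφ2 i hA hS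
  have hVL' : VirtuallyLarge ↥(D.Gam.map (IsomHyp 5).subtype) :=
    Pool.Agent.Helper82.VL.large_equiv
      (D.Gam.equivMapOfInjective _ (Subgroup.subtype_injective _)).symm hVL
  refine not_question_vl hH hfin hidx1 hle ⟨R, fun x hx => ?_⟩ hVL'
  have hx' : A.Φ (CC.symm x) ∈ Hyp 5 := by
    show CC (CC.symm x) ∈ Hyp 5
    rwa [LinearEquiv.apply_symm_apply]
  obtain ⟨g, hg, h1⟩ := A.cocompact hR hbd hx'
  refine ⟨g.1, ⟨g, hg, rfl⟩, ?_⟩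
  have h2 : A.Φ (D.ρ g (CC.symm x)) = g.1.1 *ᵥ x := by
    show CC (D.ρ g (CC.symm x)) = _
    rw [hρ, LinearEquiv.apply_symm_apply]
  rwa [h2] at h1

end Pool.Agent.Helper65.FN
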