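import Pool.Agent.Helper65.FN.Cert
import Pool.Agent.Helper77.T2.GRel
import Pool.Agent.Helper74.TF.Big

/-!
# MP_0fb3e0: the instance satisfies the hypotheses, part 1
(tables, facets, positivity, membership of the generators)
-/

namespace Pool.Agent.Helper65.FN

open H77T2 Pool.Agent.Helper65.L1 Pool.Agent.Helper84.NG Pool.Agent.Helper74.TF Matrix

/-- the word of the side pairing `w` -/
def wdK (w : Fin 52) : List ℕ := [lt (wu w), 20 + (wm w : ℕ), lt (wu w)⁻¹]

theorem setupG_K (w : Fin 52) : setupG.K w = ((wdK w).map LG).prod := by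
  show qG (wu w) * LG (20 + (wm w : ℕ)) * (qG (wu w))⁻¹ = _
  rw [← map_inv, qG_apply, qG_apply]
  simp only [wdK, List.map_cons, List.map_nil, List.prod_cons, List.prod_nil, mul_one, mul_assoc]

theorem wdK_lt (w : Fin 52) : ∀ n ∈ wdK w, n < 25 := by
  intro n hn
  simp only [wdK, List.mem_cons, List.not_mem_nil, or_false] at hn
  rcases hn with rfl | rfl | rfl
  · exact lt_lt _
  · have := (wm w).2
    omega
  · exact lt_lt _

/-- application of a word to the base point -/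
theorem rhoV_word (l : List ℕ) (hl : ∀ n ∈ l, n < 25) (v : V6) :
    rhoV ((l.map LG).prod) v.toR = (apV l v).toR := by
  rw [rhoV_prod l hl, evM_toR, apV_toR]

theorem nv_eq : ∀ w : Fin 52, (apV (wdK w) ov).sub ov = nv w := by decide +kernel

theorem isTab_D : IsTab D where
  B _ _ := rfl
  x0 := rfl
  n w := by
    show rhoV (setupG.K w) o6 - o6 = _
    rw [setupG_K, ← ov_toR, rhoV_word _ (wdK_lt w), ← V6.toR_sub, nv_eq]

/-- inverse in `ℚ(√6)` -/
def qinv (x : Q6) : Q6 :=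
  ⟨x.a / (x.a * x.a - 6 * (x.b * x.b)), -x.b / (x.a * x.a - 6 * (x.b * x.b))⟩

/-- the foot point of the base point on the wall -/
def foot (w : ℕ) : V6 :=
  V6.axpy (-(V6.B ov (nv w) * qinv (V6.B (nv w) (nv w)))) (nv w) ov

theorem foot_chk : ∀ m : Fin 5, chkFacet (wrep m) (foot (wrep m)) = true := by decide +kernel

theorem E0_q (u : Q20) : setupG.q u ∈ D.E0 := ⟨u, rfl⟩

theorem facets_D : ∀ w, IsFacet D.N D.P w :=
  isTab_D.facets setupG (fun _ => rfl) E0_q (fun m => foot (wrep m)) foot_chk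

theorem int_D : ∀ w, 0 < D.N w D.x0 :=
  isTab_D.int (by decide +kernel)

theorem P_nonneg_D : ∀ x : Fin 6 → ℝ, (∀ w, 0 ≤ D.N w x) → 0 ≤ D.P x := fun _ hx =>
  isTab_D.P_nonneg (l := [(0, 1), (1, 1)]) (by decide +kernel) (by decide +kernel) hx

/-! ### membership of the generators in `HB` -/

theorem LG_HB {n : ℕ} (hn : n < 25) : (LG n).1 ∈ HB := by
  unfold LG
  split_ifs with h1 h2
  · exact HB.mul_mem (HB.pow_mem uz_HB _) (HB.pow_mem ux_HB _)
  · exact uk_HB _
  · exact HB.one_mem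

theorem prod_HB (l : List ℕ) (hl : ∀ n ∈ l, n < 25) : ((l.map LG).prod).1 ∈ HB := by
  induction l with
  | nil => exact HB.one_mem
  | cons n l ih =>
    rw [List.map_cons, List.prod_cons]
    exact HB.mul_mem (LG_HB (hl n List.mem_cons_self))
      (ih fun m hm => hl m (List.mem_cons_of_mem _ hm))

theorem K_HB (w : Fin 52) : (D.K w).1 ∈ HB := by
  show (setupG.K w).1 ∈ HB
  rw [setupG_K]
  exact prod_HB _ (wdK_lt w)

theorem E0_HB : ∀ u ∈ D.E0, u.1 ∈ HB := by
  rintro _ ⟨a, rfl⟩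
  rw [qG_apply]
  exact LG_HB (lt_lt a)

/-! ### labels -/

theorem LW_mem {n : ℕ} (hn : n < 25) :
    LW n ∈ Subgroup.closure (Set.range L.f ∪ Set.range L.φ0) := by
  by_cases h : n < 20
  · apply Subgroup.subset_closure
    right
    exact ⟨⟨qG ⟨⟨n, h⟩⟩, ⟨_, rfl⟩⟩, phi0_apply _⟩
  · apply Subgroup.subset_closure
    left
    refine ⟨wrep ⟨n - 20, by omega⟩, ?_⟩
    show setupF.K (wrep ⟨n - 20, by omega⟩) = _
    rw [Setup.K_rep]
    show LW (20 + (n - 20)) = _
    congr 1
    omega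

theorem prodW_mem (l : List ℕ) (hl : ∀ n ∈ l, n < 25) :
    (l.map LW).prod ∈ Subgroup.closure (Set.range L.f ∪ Set.range L.φ0) := by
  induction l with
  | nil => exact Subgroup.one_mem _
  | cons n l ih =>
    rw [List.map_cons, List.prod_cons]
    exact Subgroup.mul_mem _ (LW_mem (hl n List.mem_cons_self))
      (ih fun m hm => hl m (List.mem_cons_of_mem _ hm))

/-- the check of a label of a loop at the point 0 -/
def chkLab (l : List ℕ) (m : M2) : Bool :=
  l.all (fun n => decide (n < 25)) && decide (run l 0 = (0, m))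

theorem label_of_chk {l : List ℕ} {m : M2} {g : GL (Fin 2) ℤ} (hg : g.1 = m.toM)
    (h : chkLab l m = true) : ∃ p ∈ Subgroup.closure (Set.range L.f ∪ Set.range L.φ0),
      p.perm (0 : Fin 405) = 0 ∧ p.lab 0 = g := by
  unfold chkLab at h
  rw [Bool.and_eq_true, List.all_eq_true] at h
  have hl : ∀ n ∈ l, n < 25 := fun n hn => of_decide_eq_true (h.1 n hn)
  have h2 : run l 0 = (0, m) := of_decide_eq_true h.2
  obtain ⟨h3, h4⟩ := run_spec l hl 0
  refine ⟨_, prodW_mem l hl, ?_, ?_⟩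
  · apply Fin.ext
    rw [h3]
    show (run l 0).1 = 0
    rw [h2]
  · apply Units.ext
    rw [h4, hg]
    show (run l 0).2.toM = _
    rw [h2]

theorem label_a : ∃ p ∈ Subgroup.closure (Set.range L.f ∪ Set.range L.φ0),
    p.perm (0 : Fin 405) = 0 ∧ p.lab 0 = Pool.Agent.Helper82.VL.aM :=
  label_of_chk (l := [23, 2]) (m := ⟨0, 1, 1, 0⟩) rfl (by decide +kernel)

theorem label_s : ∃ p ∈ Subgroup.closure (Set.range L.f ∪ Set.range L.φ0),
    p.perm (0 : Fin 405) = 0 ∧ p.lab 0 = Pool.Agent.Helper82.VL.sM :=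
  label_of_chk (l := [22, 24, 23, 20, 22, 22, 20, 22, 6, 24, 3]) (m := ⟨1, 2, 0, 1⟩) rfl
    (by decide +kernel)

/-- **what is left**: the cycles of the ridges and the certificates on the walls. -/
theorem not_question_of_tables
    (hb : ∀ s t, s ≠ t → IsRidge D.N D.P s t → L.ext.Cyc s t)
    (l : Fin 5 → List (Q6 × ℕ × ℕ)) (ε : Fin 5 → Q6) (y : Fin 5 → V6)
    (hc : ∀ m : Fin 5, chkQ (wrep m) (l m) (ε m) (y m) = true) {R : ℝ} (hR : 1 ≤ R)
    (hε : ∀ m, 1 ≤ R ^ 2 * Q6.toR (ε m)) : ¬ Question :=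
  not_question_of_instance (D := D) HB_le HB_fin HB_index (fun _ _ => rfl) CC_rhoV rfl
    K_HB E0_HB int_D facets_D (le_trans zero_le_one hR)
    (isTab_D.bounded setupG (fun _ => rfl) E0_q int_D P_nonneg_D l ε y hc hR hε) L hb 0
    label_a label_s

end Pool.Agent.Helper65.FN
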