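import Pool.Agent.Helper65.FN.Unif

/-!
# Cocompact groups are lattices; finite index subgroups
-/

open MeasureTheory Matrix H77T2

namespace Pool.Agent.Helper65.FN

open Pool.Agent.Helper65.PK

variable {m : ℕ}

theorem abs_le_zero' {x : Fin (m + 1) → ℝ} (hx : x ∈ Hyp m) (i : Fin (m + 1)) : |x i| ≤ x 0 := by
  have h0 := one_le_zero hx
  refine Fin.cases ?_ (fun j => ?_) i
  · rw [abs_of_nonneg (by linarith)]
  · have h1 := sum_sq hx
    have h2 : x j.succ ^ 2 ≤ ∑ i : Fin m, x i.succ ^ 2 :=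
      Finset.single_le_sum (f := fun i : Fin m => x i.succ ^ 2) (fun i _ => sq_nonneg _)
        (Finset.mem_univ j)
    apply abs_le_of_sq_le_sq _ (by linarith)
    linarith

/-- the closed ball around the base point -/
def cball (m : ℕ) (R : ℝ) : Set (Fin (m + 1) → ℝ) := {x | x ∈ Hyp m ∧ x 0 ≤ R}

theorem measurableSet_Hyp : MeasurableSet (Hyp m) :=
  (measurableSet_eq_fun measurable_mink_self measurable_const).inter
    (measurableSet_lt measurable_const (measurable_pi_apply 0))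

theorem measurableSet_cball (R : ℝ) : MeasurableSet (cball m R) :=
  measurableSet_Hyp.inter (measurableSet_le (measurable_pi_apply 0) measurable_const)

theorem hypVol_cball_lt_top (R : ℝ) : hypVol m (cball m R) < ⊤ := by
  rw [hypVol_eq (measurableSet_cball R)]
  apply ENNReal.mul_lt_top ENNReal.ofReal_lt_top
  have h1 : cone m (cball m R) ⊆ Set.Icc (fun _ => -R) (fun _ => R) := by
    rintro p ⟨h0, h1, h2, h3, h4⟩
    have h5 : 0 < Real.sqrt (mink m p p) := Real.sqrt_pos.mpr h1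
    have h6 : Real.sqrt (mink m p p) ≤ 1 := Real.sqrt_le_one.mpr h2
    have h7 : ∀ i, |p i| ≤ R := by
      intro i
      have h8 := (abs_le_zero' h3 i).trans h4
      simp only [Pi.smul_apply, smul_eq_mul] at h8
      rw [abs_mul, abs_of_pos (inv_pos.mpr h5)] at h8
      have h9 : |p i| = Real.sqrt (mink m p p) * ((Real.sqrt (mink m p p))⁻¹ * |p i|) := by
        rw [← mul_assoc, mul_inv_cancel₀ h5.ne', one_mul]
      have h10 : 0 ≤ (Real.sqrt (mink m p p))⁻¹ * |p i| := by positivity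
      rw [h9]
      calc Real.sqrt (mink m p p) * ((Real.sqrt (mink m p p))⁻¹ * |p i|)
          ≤ 1 * ((Real.sqrt (mink m p p))⁻¹ * |p i|) := mul_le_mul_of_nonneg_right h6 h10
        _ ≤ R := by rw [one_mul]; exact h8
    exact ⟨fun i => (abs_le.mp (h7 i)).1, fun i => (abs_le.mp (h7 i)).2⟩
  exact lt_of_le_of_lt (measure_mono h1) isCompact_Icc.measure_lt_top

/-- discreteness -/
theorem discrete_of_fin {Γ : Subgroup (GL (Fin (m + 1)) ℝ)}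
    (hfin : ∀ C : ℝ, {γ : GL (Fin (m + 1)) ℝ | γ ∈ Γ ∧ (γ.1 *ᵥ e0 m) 0 ≤ C}.Finite) :
    DiscreteTopology Γ := by
  apply discreteTopology_of_isOpen_singleton_one
  have hcont : Continuous (fun γ : Γ => ((γ : GL (Fin (m + 1)) ℝ).1 *ᵥ e0 m) 0) := by
    have h1 : Continuous (fun γ : Γ => (γ : GL (Fin (m + 1)) ℝ).1) :=
      Units.continuous_val.comp continuous_subtype_val
    exact (continuous_apply 0).comp (h1.matrix_mulVec continuous_const)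
  set U : Set Γ := {γ : Γ | ((γ : GL (Fin (m + 1)) ℝ).1 *ᵥ e0 m) 0 < 2} with hU
  have hUo : IsOpen U := isOpen_lt hcont continuous_const
  have hUf : U.Finite := by
    have h1 : (Subtype.val '' U).Finite := by
      apply (hfin 2).subset
      rintro _ ⟨γ, hγ, rfl⟩
      exact ⟨γ.2, le_of_lt hγ⟩
    exact h1.of_finite_image Subtype.val_injective.injOn
  have h1U : (1 : Γ) ∈ U := by
    show (((1 : Γ) : GL (Fin (m + 1)) ℝ).1 *ᵥ e0 m) 0 < 2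
    rw [Subgroup.coe_one, Units.val_one, one_mulVec, e0_zero]
    norm_num
  have h2 : ({1} : Set Γ) = U ∩ (U \ {1})ᶜ := by
    ext γ
    simp only [Set.mem_singleton_iff, Set.mem_inter_iff, Set.mem_compl_iff, Set.mem_sdiff, not_and,
      not_not]
    constructor
    · rintro rfl
      exact ⟨h1U, fun _ => rfl⟩
    · rintro ⟨h3, h4⟩
      exact h4 h3
  rw [h2]
  exact hUo.inter (hUf.subset Set.sdiff_subset).isClosed.isOpen_compl

/-- a cocompact discrete group is a lattice -/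
theorem isLattice_of_cocompact {Γ : Subgroup (GL (Fin (m + 1)) ℝ)} (hΓ : Γ ≤ IsomHyp m)
    (hcoc : ∃ R : ℝ, ∀ x ∈ Hyp m, ∃ γ ∈ Γ, (γ.1 *ᵥ x) 0 ≤ R)
    (hfin : ∀ C : ℝ, {γ : GL (Fin (m + 1)) ℝ | γ ∈ Γ ∧ (γ.1 *ᵥ e0 m) 0 ≤ C}.Finite) :
    IsLattice m Γ := by
  obtain ⟨R, hR⟩ := hcoc
  refine ⟨hΓ, discrete_of_fin hfin, cball m R, fun x hx => hx.1, measurableSet_cball R,
    hypVol_cball_lt_top R, ?_⟩
  intro x hx
  obtain ⟨γ, hγ, h⟩ := hR x hx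
  exact ⟨γ, hγ, (isom_mem (hΓ hγ)).mpr hx, h⟩

/-- subgroups of finite index of cocompact groups are cocompact -/
theorem cocompact_of_finiteIndex {Γ Γ' : Subgroup (GL (Fin (m + 1)) ℝ)} (hΓ : Γ ≤ IsomHyp m)
    (hfi : (Γ'.subgroupOf Γ).FiniteIndex)
    (hcoc : ∃ R : ℝ, ∀ x ∈ Hyp m, ∃ γ ∈ Γ, (γ.1 *ᵥ x) 0 ≤ R) :
    ∃ R : ℝ, ∀ x ∈ Hyp m, ∃ γ ∈ Γ', (γ.1 *ᵥ x) 0 ≤ R := by
  obtain ⟨R, hR⟩ := hcoc
  have hfin : Finite (Γ ⧸ Γ'.subgroupOf Γ) := inferInstance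
  obtain ⟨M, hM⟩ := (Set.finite_range (fun q : Γ ⧸ Γ'.subgroupOf Γ =>
    ((q.out : Γ) : GL (Fin (m + 1)) ℝ).1 *ᵥ e0 m)).image (fun v => v 0) |>.bddAbove
  refine ⟨2 * (M * R), fun x hx => ?_⟩
  obtain ⟨γ, hγ, hγR⟩ := hR x hx
  set q : Γ ⧸ Γ'.subgroupOf Γ := QuotientGroup.mk ⟨γ, hγ⟩ with hq
  set c : GL (Fin (m + 1)) ℝ := ((q.out : Γ) : GL (Fin (m + 1)) ℝ) with hc
  have hcΓ : c ∈ Γ := q.out.2
  have h1 : c⁻¹ * γ ∈ Γ' := by
    have h2 : (q.out : Γ)⁻¹ * ⟨γ, hγ⟩ ∈ Γ'.subgroupOf Γ := by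
      rw [← QuotientGroup.eq]
      exact Quotient.out_eq' q
    exact h2
  refine ⟨c⁻¹ * γ, h1, ?_⟩
  have h3 : γ.1 *ᵥ x ∈ Hyp m := (isom_mem (hΓ hγ)).mpr hx
  have h4 : c.1 *ᵥ e0 m ∈ Hyp m := (isom_mem (hΓ hcΓ)).mpr e0_mem
  have h5 : ((c⁻¹ * γ).1 *ᵥ x) 0 = mink m (c.1 *ᵥ e0 m) (γ.1 *ᵥ x) := by
    rw [mul_mulVec, ← mink_e0_left ((c⁻¹).1 *ᵥ (γ.1 *ᵥ x)), isom_mink_inv (hΓ hcΓ)]
  rw [h5]
  have h6 := mink_le h4 h3
  have h7 : (c.1 *ᵥ e0 m) 0 ≤ M := hM ⟨_, ⟨q, rfl⟩, rfl⟩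
  have h8 := one_le_zero h3
  have h9 := one_le_zero h4
  have h10 : (c.1 *ᵥ e0 m) 0 * (γ.1 *ᵥ x) 0 ≤ M * R :=
    mul_le_mul h7 hγR (by linarith) (by linarith)
  linarith

end Pool.Agent.Helper65.FN
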