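import Pool.Agent.Helper65.FN.Unif
import Pool.Agent.Helper84.NG.Abs

/-!
# No totally geodesic hypersurface (abstract version)
-/

open MeasureTheory Matrix H77T2

namespace Pool.Agent.Helper65.FN

open Pool.Agent.Helper65.PK Pool.Agent.Helper84.NG

variable {A D : Type*} [Ring A] [Algebra ℝ A] [Ring D] [Algebra ℚ D]

/-- a cocompact discrete group of isometries of `H^5` given by elements of a division algebra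
without anti-automorphism has no closed totally geodesic hypersurface -/
theorem no_hypersurface [Nontrivial A] [FiniteDimensional ℝ A]
    (hdim : Module.finrank ℝ A = 16) {t : A →ₗ[ℝ] ℝ} {st : A →ₗ[ℝ] A}
    {ψ : (Fin (5 + 1) → ℝ) →ₗ[ℝ] A} (H : Model 5 t st ψ)
    [Nontrivial D] [FiniteDimensional ℚ D] (hD : ∀ y : D, y ≠ 0 → ∃ y' : D, y * y' = 1)
    (ι : D →+* A) (hι : Function.Injective ι)
    (hreal : ∀ (d : D) (r : ℝ), ι d = algebraMap ℝ A r → ∃ q : ℚ, d = algebraMap ℚ D q)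
    (hanti : ∀ σ : D →ₗ[ℚ] D, σ 1 = 1 → ¬ ∀ a b, σ (a * b) = σ b * σ a)
    {Γ : Subgroup (GL (Fin 6) ℝ)} (hΓ : Γ ≤ IsomHyp 5)
    (hcoc : ∃ R : ℝ, ∀ x ∈ Hyp 5, ∃ γ ∈ Γ, (γ.1 *ᵥ x) 0 ≤ R)
    (hfin : ∀ C : ℝ, {γ : GL (Fin 6) ℝ | γ ∈ Γ ∧ (γ.1 *ᵥ e0 5) 0 ≤ C}.Finite)
    (hrat : ∀ γ ∈ Γ, ∃ d : D, (∃ d', d * d' = 1 ∧ d' * d = 1) ∧
      ∀ x, ι d * ψ x * st (ι d) = ψ (γ.1 *ᵥ x)) :
    ¬ HasGeodesicHypersurface 4 Γ := by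
  rintro ⟨g, hg, hL⟩
  obtain ⟨R, hR⟩ := hcoc
  obtain ⟨R', hR'⟩ := hstab_cocompact hΓ hR hfin hg hL
  apply no_hyperplane hdim H hD ι hι hreal hanti (φ := hypL 4 g) (hypL_mink hg)
    (hypL_mem hg (e0_mem (m := 4))).2
    {d : D | (∃ d', d * d' = 1 ∧ d' * d = 1) ∧ ∃ γ ∈ Γ,
      (∀ x, ι d * ψ x * st (ι d) = ψ (γ.1 *ᵥ x)) ∧
      ∀ v, ∃ v', γ.1 *ᵥ (hypL 4 g v) = hypL 4 g v'}
  · rintro d ⟨h, -⟩
    exact h
  · rintro d ⟨-, γ, hγ, h1, h2⟩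
    refine ⟨Matrix.mulVecLin γ.1, fun x => h1 x, ?_, fun y => h2 y⟩
    intro x y
    exact isom_mink (hΓ hγ) x y
  · refine ⟨R', fun y hy => ?_⟩
    obtain ⟨γ, hγ, h1, y', hy', hyR, h2⟩ := hR' y hy
    obtain ⟨d, hd, h3⟩ := hrat γ hγ
    refine ⟨d, ⟨hd, γ, hγ, h3, h1⟩, y', hy', hyR, ?_⟩
    rw [h3, h2]

end Pool.Agent.Helper65.FN
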