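import Pool.Agent.Helper65.FN.Bnd

/-!
# MP_0fb3e0: the ridges: 22 cycles and 59 Farkas certificates; the answer to the question
-/

namespace Pool.Agent.Helper65.FN

open H77T2 Pool.Agent.Helper65.L1 Matrix

/-- cycles: `(s, t, walls, closing element of Q20, cone coefficients)` : `K_s * prod K_l = K_t * q v`,
`(K_s K_l1 ... K_li) x0 - x0 = α n_s + β n_t` for `1 ≤ i < length` -/
def cycT : List (ℕ × ℕ × List ℕ × ℕ × List (ℕ × ℕ)) := [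
  (0, 3, [28], 8, []),
  (0, 23, [2], 4, []),
  (2, 4, [46], 4, []),
  (2, 11, [6, 9, 4, 9], 0, [(2, 1), (2, 2), (1, 2)]),
  (2, 12, [19, 8], 4, [(1, 1)]),
  (2, 17, [13, 11], 4, [(1, 1)]),
  (2, 21, [0], 0, []),
  (2, 23, [29, 10], 4, [(1, 1)]),
  (2, 28, [22, 11], 4, [(1, 1)]),
  (2, 35, [45, 5], 16, [(1, 1)]),
  (2, 46, [32, 10], 0, [(1, 1)]),
  (2, 47, [5], 0, []),
  (12, 27, [49], 0, []),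
  (12, 28, [19, 14], 8, [(1, 1)]),
  (12, 35, [24], 12, []),
  (12, 42, [20], 4, []),
  (12, 45, [33, 30], 16, [(1, 1)]),
  (22, 24, [39], 4, []),
  (22, 33, [49, 12], 16, [(1, 1)]),
  (22, 39, [23], 8, []),
  (32, 38, [35], 0, []),
  (32, 41, [36], 0, [])]

/-- Farkas certificates: `(s, t, l, a, b)` : `∑ c_w n_w = a n_s + b n_t` -/
def farT : List (ℕ × ℕ × List (ℕ × Q6) × Q6 × Q6) := [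
  (0, 1, [(3, ⟨-17 / 5, 7 / 5⟩), (4, ⟨7 / 5, -2 / 5⟩), (7, ⟨16 / 5, -6 / 5⟩), (9, ⟨16 / 5, -6 / 5⟩), (11, ⟨-17 / 5, 7 / 5⟩)], ⟨-102 / 25, 47 / 25⟩, ⟨117 / 25, -37 / 25⟩),
  (0, 2, [(1, ⟨66 / 239, -3 / 239⟩), (11, ⟨47 / 239, -13 / 239⟩), (23, ⟨63 / 239, 8 / 239⟩), (27, ⟨63 / 239, 8 / 239⟩)], ⟨51 / 239, 52 / 239⟩, ⟨32 / 239, 42 / 239⟩),
  (0, 12, [(10, ⟨2 / 5, -1 / 10⟩), (11, ⟨2 / 5, -1 / 10⟩), (27, ⟨1 / 10, 1 / 10⟩), (31, ⟨1 / 10, 1 / 10⟩)], ⟨3 / 5, 1 / 10⟩, ⟨1 / 2, 0⟩),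
  (0, 13, [(11, ⟨8, -3⟩), (25, ⟨-7, 3⟩)], ⟨8, -3⟩, ⟨3, -1⟩),
  (0, 22, [(1, ⟨4 / 5, -1 / 5⟩), (2, ⟨-7 / 10, 3 / 10⟩), (3, ⟨4 / 5, -1 / 5⟩), (4, ⟨-7 / 10, 3 / 10⟩), (5, ⟨4 / 5, -1 / 5⟩)], ⟨6 / 5, -3 / 10⟩, ⟨1 / 2, 0⟩),
  (0, 32, [(11, ⟨1 / 2, 0⟩), (29, ⟨1 / 2, 0⟩)], ⟨1 / 2, 0⟩, ⟨1 / 2, 0⟩),
  (0, 33, [(6, ⟨-1, 1 / 2⟩), (8, ⟨3 / 2, -1 / 2⟩), (20, ⟨3 / 2, -1 / 2⟩), (25, ⟨-1, 1 / 2⟩)], ⟨1 / 2, 0⟩, ⟨1 / 2, 0⟩),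
  (2, 3, [(0, ⟨14 / 43, -2 / 43⟩), (4, ⟨7 / 43, -1 / 43⟩), (16, ⟨7 / 43, -1 / 43⟩), (17, ⟨15 / 43, 4 / 43⟩)], ⟨1 / 43, 6 / 43⟩, ⟨22 / 43, 3 / 43⟩),
  (2, 6, [(0, ⟨14 / 43, -2 / 43⟩), (1, ⟨15 / 43, 4 / 43⟩), (4, ⟨7 / 43, -1 / 43⟩), (16, ⟨7 / 43, -1 / 43⟩)], ⟨1 / 43, 6 / 43⟩, ⟨1 / 43, 6 / 43⟩),
  (2, 13, [(1, ⟨9 / 25, 1 / 25⟩), (11, ⟨16 / 25, -1 / 25⟩)], ⟨-1 / 5, 1 / 5⟩, ⟨9 / 25, 1 / 25⟩),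
  (2, 14, [(0, ⟨11 / 25, -9 / 100⟩), (1, ⟨-1 / 25, 19 / 100⟩), (4, ⟨1, -1 / 3⟩), (8, ⟨1 / 10, -1 / 60⟩), (18, ⟨-1 / 2, 1 / 4⟩)], ⟨-7 / 10, 9 / 20⟩, ⟨1 / 5, 1 / 20⟩),
  (2, 15, [(1, ⟨1, -1 / 3⟩), (8, ⟨1, -1 / 3⟩), (9, ⟨-1, 1 / 2⟩), (21, ⟨-1, 1 / 2⟩), (47, ⟨1, -1 / 3⟩)], ⟨1, -1 / 6⟩, ⟨0, 1 / 6⟩),
  (2, 22, [(1, ⟨1 / 2, 0⟩), (49, ⟨1 / 2, 0⟩)], ⟨1 / 2, 0⟩, ⟨1 / 2, 0⟩),
  (2, 24, [(1, ⟨16 / 25, -1 / 25⟩), (21, ⟨9 / 25, 1 / 25⟩)], ⟨16 / 25, -1 / 25⟩, ⟨-1 / 5, 1 / 5⟩),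
  (2, 25, [(0, ⟨16 / 25, -1 / 25⟩), (1, ⟨9 / 25, 1 / 25⟩)], ⟨-1 / 5, 1 / 5⟩, ⟨-1 / 5, 1 / 5⟩),
  (2, 29, [(0, ⟨9 / 25, 1 / 25⟩), (4, ⟨9 / 25, 1 / 25⟩), (11, ⟨7 / 25, -2 / 25⟩)], ⟨-1 / 5, 1 / 5⟩, ⟨9 / 25, 1 / 25⟩),
  (2, 32, [(4, ⟨9 / 25, 1 / 25⟩), (11, ⟨16 / 25, -1 / 25⟩)], ⟨-1 / 5, 1 / 5⟩, ⟨9 / 25, 1 / 25⟩),
  (2, 33, [(0, ⟨123 / 695, -28 / 695⟩), (1, ⟨192 / 695, 58 / 695⟩), (4, ⟨24 / 139, -13 / 417⟩), (8, ⟨31 / 139, -11 / 417⟩), (20, ⟨21 / 139, 2 / 139⟩)], ⟨8 / 139, 14 / 139⟩, ⟨25 / 139, 9 / 139⟩),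
  (2, 34, [(9, ⟨5 / 19, -1 / 19⟩), (21, ⟨12 / 19, -1 / 38⟩), (47, ⟨-3 / 19, 5 / 38⟩), (48, ⟨5 / 19, -1 / 19⟩)], ⟨4 / 19, 3 / 19⟩, ⟨7 / 19, 1 / 38⟩),
  (2, 36, [(0, ⟨15 / 38, -3 / 38⟩), (1, ⟨-3 / 19, 5 / 38⟩), (9, ⟨18 / 19, -11 / 38⟩), (11, ⟨5 / 38, -1 / 38⟩), (17, ⟨-6 / 19, 5 / 19⟩)], ⟨-14 / 19, 17 / 38⟩, ⟨9 / 38, 1 / 19⟩),
  (2, 37, [(9, ⟨1 / 2, 0⟩), (47, ⟨1 / 2, 0⟩)], ⟨1 / 2, 0⟩, ⟨1 / 2, 0⟩),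
  (2, 44, [(0, ⟨21 / 25, -6 / 25⟩), (1, ⟨9 / 25, 1 / 25⟩), (8, ⟨-1 / 5, 1 / 5⟩)], ⟨-1 / 5, 1 / 5⟩, ⟨-1 / 5, 1 / 5⟩),
  (2, 45, [(1, ⟨3 / 4, -1 / 8⟩), (9, ⟨-3 / 4, 3 / 8⟩), (11, ⟨1 / 4, 0⟩), (17, ⟨3 / 4, -1 / 4⟩)], ⟨1, -1 / 4⟩, ⟨0, 1 / 8⟩),
  (12, 13, [(28, ⟨-7, 3⟩), (42, ⟨8, -3⟩)], ⟨3, -1⟩, ⟨8, -3⟩),
  (12, 14, [(0, ⟨1 / 5, 0⟩), (1, ⟨3 / 10, 0⟩), (7, ⟨3 / 10, -1 / 30⟩), (10, ⟨1 / 5, 1 / 30⟩)], ⟨1 / 10, 1 / 10⟩, ⟨1 / 10, 1 / 10⟩),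
  (12, 19, [(7, ⟨5 / 19, 1 / 19⟩), (9, ⟨9 / 19, -2 / 19⟩), (31, ⟨9 / 19, -2 / 19⟩), (36, ⟨-4 / 19, 3 / 19⟩)], ⟨5 / 19, 1 / 19⟩, ⟨1 / 19, 4 / 19⟩),
  (12, 20, [(0, ⟨7 / 5, -2 / 5⟩), (1, ⟨-1, 1 / 2⟩), (9, ⟨3 / 5, -1 / 10⟩)], ⟨7 / 5, -2 / 5⟩, ⟨-1, 1 / 2⟩),
  (12, 22, [(0, ⟨7 / 43, -1 / 43⟩), (1, ⟨21 / 43, -3 / 43⟩), (3, ⟨7 / 43, -1 / 43⟩), (9, ⟨1 / 43, 6 / 43⟩), (17, ⟨7 / 43, -1 / 43⟩)], ⟨1 / 43, 6 / 43⟩, ⟨1 / 43, 6 / 43⟩),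
  (12, 23, [(0, ⟨5 / 12, 0⟩), (2, ⟨0, 5 / 36⟩), (11, ⟨5 / 12, -5 / 36⟩), (18, ⟨1 / 4, -1 / 12⟩), (27, ⟨-1 / 12, 1 / 12⟩)], ⟨1 / 2, -1 / 12⟩, ⟨-1 / 6, 1 / 4⟩),
  (12, 26, [(28, ⟨-7, 3⟩), (37, ⟨8, -3⟩)], ⟨3, -1⟩, ⟨8, -3⟩),
  (12, 29, [(0, ⟨6 / 35, 4 / 35⟩), (1, ⟨9 / 35, 1 / 35⟩), (10, ⟨2 / 7, -1 / 14⟩), (11, ⟨2 / 7, -1 / 14⟩)], ⟨2 / 7, 0⟩, ⟨1 / 7, 1 / 14⟩),
  (12, 32, [(0, ⟨1 / 35, 3 / 70⟩), (1, ⟨9 / 35, 1 / 35⟩), (10, ⟨2 / 7, -1 / 14⟩), (11, ⟨3 / 7, 0⟩)], ⟨2 / 7, 0⟩, ⟨1 / 7, 1 / 14⟩),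
  (12, 33, [(0, ⟨11 / 46, 1 / 46⟩), (1, ⟨17 / 46, 1 / 92⟩), (5, ⟨7 / 23, -5 / 46⟩), (7, ⟨-9 / 46, 13 / 92⟩), (15, ⟨13 / 46, -3 / 46⟩)], ⟨11 / 46, 1 / 46⟩, ⟨2 / 23, 7 / 92⟩),
  (12, 34, [(27, ⟨1 / 2, 0⟩), (37, ⟨1 / 2, 0⟩)], ⟨1 / 2, 0⟩, ⟨1 / 2, 0⟩),
  (12, 40, [(0, ⟨-1, 1 / 2⟩), (2, ⟨7 / 5, -2 / 5⟩), (5, ⟨3 / 5, -1 / 10⟩)], ⟨-1, 1 / 2⟩, ⟨7 / 5, -2 / 5⟩),
  (12, 41, [(1, ⟨2 / 101, 13 / 101⟩), (2, ⟨-24 / 101, 37 / 303⟩), (11, ⟨26 / 101, 2 / 303⟩), (18, ⟨228 / 505, -33 / 505⟩), (28, ⟨257 / 505, -97 / 505⟩)], ⟨9 / 101, 8 / 101⟩, ⟨304 / 505, -44 / 505⟩),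
  (12, 43, [(0, ⟨10 / 47, -1 / 47⟩), (7, ⟨20 / 47, -2 / 47⟩), (9, ⟨20 / 47, -2 / 47⟩), (15, ⟨-3 / 47, 5 / 47⟩)], ⟨7 / 47, 4 / 47⟩, ⟨7 / 47, 4 / 47⟩),
  (12, 44, [(0, ⟨7 / 25, 1 / 300⟩), (1, ⟨17 / 100, -11 / 300⟩), (7, ⟨1 / 4, 0⟩), (10, ⟨1 / 5, -1 / 30⟩), (15, ⟨1 / 10, 1 / 15⟩)], ⟨3 / 20, 7 / 120⟩, ⟨1 / 10, 13 / 120⟩),
  (22, 23, [(2, ⟨7 / 10, -1 / 5⟩), (3, ⟨4 / 5, -3 / 10⟩), (4, ⟨7 / 10, -1 / 5⟩), (5, ⟨-1 / 5, 1 / 5⟩), (46, ⟨-1, 1 / 2⟩)], ⟨-3 / 10, 3 / 10⟩, ⟨-6 / 5, 7 / 10⟩),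
  (22, 25, [(0, ⟨-88 / 23, 38 / 23⟩), (3, ⟨120 / 23, -145 / 69⟩), (5, ⟨158 / 23, -63 / 23⟩), (6, ⟨-50 / 23, 70 / 69⟩), (19, ⟨-117 / 23, 50 / 23⟩)], ⟨27 / 23, -8 / 23⟩, ⟨26 / 23, -6 / 23⟩),
  (22, 26, [(0, ⟨-6 / 115, 13 / 345⟩), (1, ⟨56 / 115, 32 / 345⟩), (5, ⟨9 / 23, -8 / 69⟩), (8, ⟨9 / 23, -8 / 69⟩), (21, ⟨-5 / 23, 7 / 69⟩)], ⟨3 / 23, 5 / 69⟩, ⟨3 / 23, 5 / 69⟩),
  (22, 32, [(0, ⟨32 / 215, -26 / 645⟩), (1, ⟨63 / 215, 16 / 645⟩), (3, ⟨12 / 43, 1 / 129⟩), (6, ⟨7 / 43, -1 / 43⟩), (16, ⟨5 / 43, 4 / 129⟩)], ⟨10 / 43, 8 / 129⟩, ⟨3 / 43, 11 / 129⟩),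
  (22, 36, [(17, ⟨16 / 25, -1 / 25⟩), (19, ⟨9 / 25, 1 / 25⟩)], ⟨-1 / 5, 1 / 5⟩, ⟨16 / 25, -1 / 25⟩),
  (22, 37, [(0, ⟨44 / 965, 1 / 965⟩), (1, ⟨191 / 965, 114 / 965⟩), (5, ⟨52 / 193, -14 / 579⟩), (9, ⟨77 / 193, -43 / 579⟩), (21, ⟨17 / 193, -4 / 193⟩)], ⟨37 / 193, 14 / 193⟩, ⟨44 / 193, 1 / 193⟩),
  (22, 38, [(0, ⟨10 / 29, 1 / 145⟩), (1, ⟨53 / 145, -3 / 145⟩), (4, ⟨2 / 145, 7 / 145⟩), (6, ⟨21 / 145, 1 / 145⟩), (16, ⟨19 / 145, -6 / 145⟩)], ⟨23 / 145, 8 / 145⟩, ⟨4 / 145, 14 / 145⟩),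
  (22, 40, [(20, ⟨1 / 2, 0⟩), (49, ⟨1 / 2, 0⟩)], ⟨1 / 2, 0⟩, ⟨1 / 2, 0⟩),
  (22, 41, [(0, ⟨14 / 25, -4 / 25⟩), (1, ⟨16 / 25, -1 / 25⟩), (16, ⟨-1 / 5, 1 / 5⟩)], ⟨-1 / 5, 1 / 5⟩, ⟨-1 / 5, 1 / 5⟩),
  (22, 42, [(1, ⟨2 / 3, -1 / 9⟩), (3, ⟨14 / 15, -4 / 15⟩), (9, ⟨-4 / 15, 7 / 45⟩), (17, ⟨-4 / 15, 7 / 45⟩), (19, ⟨-1 / 15, 1 / 15⟩)], ⟨1, -2 / 9⟩, ⟨-8 / 15, 14 / 45⟩),
  (22, 43, [(19, ⟨9 / 25, 1 / 25⟩), (24, ⟨16 / 25, -1 / 25⟩)], ⟨-1 / 5, 1 / 5⟩, ⟨16 / 25, -1 / 25⟩),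
  (32, 33, [(0, ⟨10 / 29, 1 / 145⟩), (1, ⟨6 / 29, -11 / 145⟩), (4, ⟨21 / 145, 1 / 145⟩), (6, ⟨5 / 29, 3 / 29⟩), (14, ⟨19 / 145, -6 / 145⟩)], ⟨4 / 145, 14 / 145⟩, ⟨23 / 145, 8 / 145⟩),
  (32, 34, [(0, ⟨2 / 5, 2 / 45⟩), (1, ⟨2 / 45, 1 / 15⟩), (2, ⟨1 / 3, -1 / 9⟩), (4, ⟨1 / 3, -1 / 9⟩), (18, ⟨-1 / 9, 1 / 9⟩)], ⟨1 / 9, 1 / 18⟩, ⟨1 / 9, 1 / 18⟩),
  (32, 36, [(0, ⟨21 / 25, -6 / 25⟩), (1, ⟨14 / 25, -4 / 25⟩), (3, ⟨-1 / 5, 1 / 5⟩), (13, ⟨-1 / 5, 1 / 5⟩)], ⟨-1 / 5, 1 / 5⟩, ⟨-1 / 5, 1 / 5⟩),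
  (32, 37, [(0, ⟨87 / 139, -43 / 278⟩), (1, ⟨59 / 139, -1 / 139⟩), (10, ⟨-28 / 139, 41 / 278⟩), (11, ⟨-13 / 139, 12 / 139⟩), (18, ⟨34 / 139, -10 / 139⟩)], ⟨23 / 139, 11 / 278⟩, ⟨-26 / 139, 24 / 139⟩),
  (32, 39, [(0, ⟨152 / 695, -12 / 695⟩), (1, ⟨123 / 695, -28 / 695⟩), (3, ⟨24 / 139, -13 / 417⟩), (6, ⟨31 / 139, -11 / 417⟩), (16, ⟨29 / 139, 16 / 139⟩)], ⟨25 / 139, 9 / 139⟩, ⟨8 / 139, 14 / 139⟩),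
  (32, 40, [(0, ⟨45 / 116, 1 / 58⟩), (1, ⟨9 / 29, -5 / 58⟩), (3, ⟨13 / 116, -1 / 58⟩), (4, ⟨-1 / 58, 7 / 116⟩), (16, ⟨6 / 29, 3 / 116⟩)], ⟨7 / 58, 9 / 116⟩, ⟨1 / 116, 11 / 116⟩),
  (32, 42, [(0, ⟨21 / 25, -6 / 25⟩), (1, ⟨14 / 25, -4 / 25⟩), (11, ⟨-1 / 5, 1 / 5⟩), (13, ⟨-1 / 5, 1 / 5⟩)], ⟨-1 / 5, 1 / 5⟩, ⟨-1 / 5, 1 / 5⟩),
  (32, 46, [(0, ⟨-2 / 3, 1 / 3⟩), (3, ⟨1, -1 / 3⟩), (11, ⟨1, -1 / 3⟩), (16, ⟨-1 / 3, 1 / 3⟩)], ⟨1 / 3, 0⟩, ⟨1 / 3, 0⟩),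
  (32, 47, [(0, ⟨7 / 29, -1 / 87⟩), (1, ⟨-2 / 87, 7 / 87⟩), (2, ⟨40 / 87, -19 / 174⟩), (4, ⟨32 / 87, -7 / 58⟩), (18, ⟨-4 / 87, 14 / 87⟩)], ⟨7 / 87, 3 / 58⟩, ⟨19 / 87, 2 / 29⟩),
  (32, 50, [(0, ⟨9 / 25, 1 / 25⟩), (1, ⟨7 / 50, -1 / 25⟩), (3, ⟨1 / 5, -1 / 30⟩), (6, ⟨3 / 10, 1 / 30⟩)], ⟨1 / 10, 1 / 15⟩, ⟨1 / 10, 1 / 15⟩)]

/-- table of the representatives of the pairs of walls: bit `52 s + t` -/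
def repN : ℕ := 1103774023423260525728777741005263110421686137674388297096003308715407698464659003569246015815480505385191172491418316782506402731784693478569811405589896764837362105774192454255427631226600009256764774728619022872421732164297295494886955923147145560180539372294919163571527452692444495393297398917001935204242215106323318320908945431243915326306424656617354697993620518383848444630636135428387855965644345789661348092077786710706664987521740163248453686536410073796365493856261372466330143507445491284513953916399630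

/-- `(s, t)` is a representative -/
def repB (s t : ℕ) : Bool := (repN >>> (52 * s + t)) % 2 == 1

def toF (n : ℕ) : Fin 52 := Fin.ofNat 52 n

theorem toF_val (w : Fin 52) : toF w = w := by
  apply Fin.ext
  show (w : ℕ) % 52 = w
  exact Nat.mod_eq_of_lt w.2

/-- the word of a list of walls -/
def wdL : List (Fin 52) → List ℕ
  | [] => []
  | w :: l => wdK w ++ wdL l

theorem wdL_lt (l : List (Fin 52)) : ∀ n ∈ wdL l, n < 25 := by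
  induction l with
  | nil => intro n hn; simp [wdL] at hn
  | cons w l ih =>
    intro n hn
    rw [wdL, List.mem_append] at hn
    rcases hn with h | h
    · exact wdK_lt w n h
    · exact ih n h

/-- letters in the product -/
noncomputable def LP (n : ℕ) : ↥(IsomHyp 5) × WP (Fin 405) (GL (Fin 2) ℤ) := (LG n, LW n)

theorem LP_fst (l : List ℕ) : ((l.map LP).prod).1 = (l.map LG).prod := by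
  induction l with
  | nil => rfl
  | cons n l ih => rw [List.map_cons, List.prod_cons, List.map_cons, List.prod_cons, ← ih]; rfl

theorem LP_snd (l : List ℕ) : ((l.map LP).prod).2 = (l.map LW).prod := by
  induction l with
  | nil => rfl
  | cons n l ih => rw [List.map_cons, List.prod_cons, List.map_cons, List.prod_cons, ← ih]; rfl

theorem setupF_K (w : Fin 52) : setupF.K w = ((wdK w).map LW).prod := by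
  show qF (wu w) * LW (20 + (wm w : ℕ)) * (qF (wu w))⁻¹ = _
  rw [← map_inv, qF_apply, qF_apply]
  simp only [wdK, List.map_cons, List.map_nil, List.prod_cons, List.prod_nil, mul_one, mul_assoc]

theorem extK (w : Fin 52) : L.ext.K w = ((wdK w).map LP).prod := by
  apply Prod.ext
  · rw [LP_fst]; exact setupG_K w
  · rw [LP_snd]; exact setupF_K w

theorem extK_prod (l : List (Fin 52)) : (l.map L.ext.K).prod = ((wdL l).map LP).prod := by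
  induction l with
  | nil => rfl
  | cons w l ih =>
    rw [List.map_cons, List.prod_cons, ih, wdL, List.map_append, List.prod_append, extK]

theorem isTab_ext : IsTab L.ext := ⟨isTab_D.B, isTab_D.x0, isTab_D.n⟩

/-- the check of a cycle -/
def chkCyc (c : ℕ × ℕ × List ℕ × ℕ × List (ℕ × ℕ)) : Bool :=
  chkM (wdK (toF c.1) ++ wdL (c.2.2.1.map toF))
      (wdK (toF c.2.1) ++ [lt ⟨Fin.ofNat 20 c.2.2.2.1⟩]) &&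
    chkF (wdK (toF c.1) ++ wdL (c.2.2.1.map toF))
      (wdK (toF c.2.1) ++ [lt ⟨Fin.ofNat 20 c.2.2.2.1⟩]) &&
    allN (fun i => match c.2.2.2.2[i]? with
      | some p => chkCone (toF c.1) (toF c.2.1)
          (apV (wdK (toF c.1) ++ wdL ((c.2.2.1.map toF).take (i + 1))) ov) ⟨p.1, 0⟩ ⟨p.2, 0⟩
      | none => false) (c.2.2.1.length - 1)

theorem qE_mem (a : Q20) : ((qG a, qF a) : ↥(IsomHyp 5) × WP (Fin 405) (GL (Fin 2) ℤ)) ∈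
    L.ext.E0 := by
  refine ⟨⟨qG a, ⟨a, rfl⟩⟩, ?_⟩
  apply Prod.ext
  · rfl
  · exact phi0_apply a

theorem cyc_of_chk {c : ℕ × ℕ × List ℕ × ℕ × List (ℕ × ℕ)} (h : chkCyc c = true) :
    L.ext.Cyc (toF c.1) (toF c.2.1) := by
  unfold chkCyc at h
  rw [Bool.and_eq_true, Bool.and_eq_true] at h
  obtain ⟨⟨h1, h2⟩, h3⟩ := h
  set v : Q20 := ⟨Fin.ofNat 20 c.2.2.2.1⟩ with hv
  refine L.ext.cyc_of_list (c.2.2.1.map toF) (qE_mem v) ?_ ?_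
  · rw [extK, extK_prod, extK, ← List.prod_append, ← List.map_append]
    have e : ((qG v, qF v) : ↥(IsomHyp 5) × WP (Fin 405) (GL (Fin 2) ℤ)) =
        (([lt v]).map LP).prod := by
      simp only [List.map_cons, List.map_nil, List.prod_cons, List.prod_nil, mul_one]
      rfl
    rw [e, ← List.prod_append, ← List.map_append]
    apply Prod.ext
    · rw [LP_fst, LP_fst]; exact rel_of_chkM h1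
    · rw [LP_snd, LP_snd]; exact rel_of_chkF h2
  · intro i hi1 hi2
    rw [List.length_map] at hi2
    have h4 := allN_spec h3 (i - 1) (by omega)
    rw [Nat.sub_add_cancel hi1] at h4
    split at h4
    · rename_i p _
      refine inCone_of_chk isTab_ext ?_ h4
      rw [extK, extK_prod, ← List.prod_append, ← List.map_append]
      show rhoV ((((wdK (toF c.1) ++ wdL ((c.2.2.1.map toF).take i)).map LP).prod).1) o6 = _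
      rw [LP_fst, ← ov_toR]
      apply rhoV_word
      intro n hn
      rw [List.mem_append] at hn
      rcases hn with h | h
      · exact wdK_lt _ n h
      · exact wdL_lt _ n h
    · simp at h4

theorem cycT_chk : cycT.all chkCyc = true := by decide +kernel

/-- the check of a Farkas certificate -/
def chkFar (c : ℕ × ℕ × List (ℕ × Q6) × Q6 × Q6) : Bool :=
  chkFarkas (toF c.1) (toF c.2.1) c.2.2.1 c.2.2.2.1 c.2.2.2.2 0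

theorem farT_chk : farT.all chkFar = true := by decide +kernel

/-- the representatives are in the lists -/
def inT (s t : ℕ) : Bool :=
  cycT.any (fun c => c.1 == s && c.2.1 == t) || farT.any (fun c => c.1 == s && c.2.1 == t)

theorem rep_inT : allN (fun s => allN (fun t => !(repB s t) || inT s t) 52) 52 = true := by
  decide +kernel

theorem rep_spec {s t : Fin 52} (h : repB s t = true) :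
    L.ext.Cyc s t ∨ ¬ IsRidge L.ext.N L.ext.P s t := by
  have h1 := allN_spec (allN_spec rep_inT s s.2) t t.2
  rw [h, Bool.not_true, Bool.false_or] at h1
  unfold inT at h1
  rw [Bool.or_eq_true, List.any_eq_true, List.any_eq_true] at h1
  rcases h1 with ⟨c, hc, h2⟩ | ⟨c, hc, h2⟩
  · left
    rw [Bool.and_eq_true, beq_iff_eq, beq_iff_eq] at h2
    have h3 := cyc_of_chk (List.all_eq_true.1 cycT_chk c hc)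
    rw [h2.1, h2.2, toF_val, toF_val] at h3
    exact h3
  · right
    rw [Bool.and_eq_true, beq_iff_eq, beq_iff_eq] at h2
    have h3 := List.all_eq_true.1 farT_chk c hc
    unfold chkFar at h3
    have h4 := isTab_ext.not_ridge h3
    rw [h2.1, h2.2, toF_val, toF_val] at h4
    exact h4

/-- every pair of walls is equivalent to a representative -/
def redB (s t : ℕ) : Bool :=
  !(allN (fun a => !(repB (act ⟨Fin.ofNat 20 a⟩ (toF s)) (act ⟨Fin.ofNat 20 a⟩ (toF t)) ||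
    repB (act ⟨Fin.ofNat 20 a⟩ (toF t)) (act ⟨Fin.ofNat 20 a⟩ (toF s)))) 20)

theorem red_all : allN (fun t => allN (fun s => redB s t) t) 52 = true := by decide +kernel

theorem allN_false {p : ℕ → Bool} {n : ℕ} (h : allN p n = false) : ∃ i, p i = false := by
  induction n with
  | zero => simp [allN] at h
  | succ n ih =>
    unfold allN at h
    rcases hp : p n with _ | _
    · exact ⟨n, hp⟩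
    · rw [hp, Bool.true_and] at h
      exact ih h

theorem red_spec {s t : Fin 52} (h : s < t) : ∃ a : Q20,
    repB (act a s) (act a t) = true ∨ repB (act a t) (act a s) = true := by
  have h1 := allN_spec (allN_spec red_all t t.2) s h
  unfold redB at h1
  rw [Bool.not_eq_true'] at h1
  obtain ⟨a, ha⟩ := allN_false h1
  rw [Bool.not_eq_false', Bool.or_eq_true, toF_val, toF_val] at ha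
  exact ⟨_, ha⟩

/-- all ridges have cycles -/
theorem hb : ∀ s t, s ≠ t → IsRidge D.N D.P s t → L.ext.Cyc s t := by
  have hn : Function.Injective L.ext.n := isTab_ext.n_inj
  apply L.ext.ridge_reduce hn
  have key : ∀ (a : Q20) (w : Fin 52), ((qG a, qF a) : ↥(IsomHyp 5) × WP (Fin 405)
      (GL (Fin 2) ℤ)) * L.ext.K w = L.ext.K (act a w) *
        (qG (Setup.vact a w), qF (Setup.vact a w)) := by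
    intro a w
    exact Prod.ext (setupG.eqv a w) (setupF.eqv a w)
  have main : ∀ s t : Fin 52, s < t → ∃ s' t', (L.ext.Cyc s' t' ∨
      ¬ IsRidge L.ext.N L.ext.P s' t') ∧ ∃ u ∈ L.ext.E0, ∃ v ∈ L.ext.E0, ∃ v' ∈ L.ext.E0,
        (u * L.ext.K s = L.ext.K s' * v ∧ u * L.ext.K t = L.ext.K t' * v') ∨
        (u * L.ext.K t = L.ext.K s' * v ∧ u * L.ext.K s = L.ext.K t' * v') := by
    intro s t hst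
    obtain ⟨a, ha | ha⟩ := red_spec hst
    · exact ⟨_, _, rep_spec ha, _, qE_mem a, _, qE_mem (Setup.vact a s), _,
        qE_mem (Setup.vact a t), Or.inl ⟨key a s, key a t⟩⟩
    · exact ⟨_, _, rep_spec ha, _, qE_mem a, _, qE_mem (Setup.vact a t), _,
        qE_mem (Setup.vact a s), Or.inr ⟨key a t, key a s⟩⟩
  intro s t hst
  rcases lt_or_gt_of_ne hst with h | h
  · exact main s t h
  · obtain ⟨s', t', h1, u, hu, v, hv, v', hv', h2⟩ := main t s h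
    exact ⟨s', t', h1, u, hu, v, hv, v', hv', h2.symm⟩

/-- **the answer to Q1 is negative.** -/
theorem not_question_final : ¬ Question := not_question_of_ridges hb

end Pool.Agent.Helper65.FN
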