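import Mathlib

/-!
# The group generated by `a = [[0,1],[1,0]]` and `s = [[1,2],[0,1]]`

`s` and `a s a` generate a free group of rank two (ping-pong), of index two in `⟨a, s⟩`.
-/

open Matrix
open scoped Pointwise

namespace Pool.Agent.Helper65.FN

/-- `[[0,1],[1,0]]` -/
def aM : GL (Fin 2) ℤ := ⟨!![0, 1; 1, 0], !![0, 1; 1, 0], by decide, by decide⟩

/-- `[[1,2],[0,1]]` -/
def sM : GL (Fin 2) ℤ := ⟨!![1, 2; 0, 1], !![1, -2; 0, 1], by decide, by decide⟩

theorem aM_mul : aM * aM = 1 := by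
  apply Units.ext
  decide

theorem aM_inv : aM⁻¹ = aM := inv_eq_of_mul_eq_one_left aM_mul

/-- the two free generators -/
def gen (i : Fin 2) : GL (Fin 2) ℤ := if i = 0 then sM else aM * sM * aM⁻¹

/-- the action on integral vectors -/
@[reducible] def actZ : MulAction (GL (Fin 2) ℤ) (Fin 2 → ℤ) where
  smul g v := g.1 *ᵥ v
  one_smul v := by
    show (1 : Matrix (Fin 2) (Fin 2) ℤ) *ᵥ v = v
    rw [one_mulVec]
  mul_smul g h v := by
    show (g.1 * h.1) *ᵥ v = g.1 *ᵥ (h.1 *ᵥ v)
    rw [mulVec_mulVec]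

attribute [local instance] actZ

theorem smul_def' (g : GL (Fin 2) ℤ) (v : Fin 2 → ℤ) : g • v = g.1 *ᵥ v := rfl

theorem sM_smul (v : Fin 2 → ℤ) : sM • v = ![v 0 + 2 * v 1, v 1] := by
  rw [smul_def']
  ext i
  fin_cases i <;> simp [sM, mulVec, dotProduct, Fin.sum_univ_two]

theorem sM_inv_smul (v : Fin 2 → ℤ) : sM⁻¹ • v = ![v 0 - 2 * v 1, v 1] := by
  rw [inv_smul_eq_iff, sM_smul]
  ext i
  fin_cases i <;> simp

theorem aM_smul (v : Fin 2 → ℤ) : aM • v = ![v 1, v 0] := by
  rw [smul_def']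
  ext i
  fin_cases i <;> simp [aM, mulVec, dotProduct, Fin.sum_univ_two]

theorem sM_zpow_smul (n : ℤ) (v : Fin 2 → ℤ) : sM ^ n • v = ![v 0 + 2 * n * v 1, v 1] := by
  induction n using Int.induction_on generalizing v with
  | zero =>
    rw [zpow_zero, one_smul]
    ext i
    fin_cases i <;> simp
  | succ n ih =>
    rw [_root_.zpow_add_one, mul_smul, sM_smul, ih]
    ext i
    fin_cases i
    · simp
      ring
    · simp
  | pred n ih =>
    rw [_root_.zpow_sub_one, mul_smul, sM_inv_smul, ih]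
    ext i
    fin_cases i
    · simp
      ring
    · simp

/-- the ping-pong sets -/
def XX (i : Fin 2) : Set (Fin 2 → ℤ) := if i = 0 then {v | |v 1| < |v 0|} else {v | |v 0| < |v 1|}

theorem ping0 {n : ℤ} (hn : n ≠ 0) {v : Fin 2 → ℤ} (hv : |v 0| < |v 1|) :
    |(sM ^ n • v) 1| < |(sM ^ n • v) 0| := by
  rw [sM_zpow_smul]
  simp only [cons_val_zero, cons_val_one]
  have h1 : 1 ≤ |n| := Int.one_le_abs hn
  have h2 : |2 * n * v 1| ≤ |v 0 + 2 * n * v 1| + |v 0| := by
    have h3 : 2 * n * v 1 = (v 0 + 2 * n * v 1) - v 0 := by ring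
    calc |2 * n * v 1| = |(v 0 + 2 * n * v 1) - v 0| := by rw [← h3]
      _ ≤ _ := abs_sub _ _
  rw [abs_mul, abs_mul, abs_two] at h2
  have h3 : |v 1| ≤ |n| * |v 1| := by
    nlinarith [abs_nonneg (v 1)]
  linarith

theorem sanov : Function.Injective (FreeGroup.lift gen) := by
  have : FreeGroup.lift gen =
      (Monoid.CoprodI.lift fun i => FreeGroup.lift fun _ => gen i).comp
        (@freeGroupEquivCoprodI (Fin 2)).toMonoidHom := by
    ext1 i
    simp
  rw [this, MonoidHom.coe_comp]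
  clear this
  refine Function.Injective.comp ?_ (MulEquiv.injective freeGroupEquivCoprodI)
  change Function.Injective
    (Monoid.CoprodI.lift fun i : Fin 2 => FreeGroup.lift (β := GL (Fin 2) ℤ) fun _ : Unit => gen i)
  let H : Fin 2 → Type := fun _i => FreeGroup Unit
  apply Monoid.CoprodI.lift_injective_of_ping_pong (H := H)
    (f := fun i : Fin 2 => FreeGroup.lift (β := GL (Fin 2) ℤ) fun _ : Unit => gen i) _ XX
  · intro i
    fin_cases i
    · exact ⟨![1, 0], by simp [XX]⟩
    · exact ⟨![0, 1], by simp [XX]⟩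
  · have h : Disjoint (XX 0) (XX 1) := by
      rw [Set.disjoint_left]
      intro v h0 h1
      simp only [XX, if_true] at h0 h1
      have h0' : |v 1| < |v 0| := h0
      have h1' : |v 0| < |v 1| := h1
      exact lt_asymm h0' h1'
    intro i j hij
    fin_cases i <;> fin_cases j
    · exact absurd rfl hij
    · exact h
    · exact h.symm
    · exact absurd rfl hij
  · intro i j hij
    refine FreeGroup.freeGroupUnitEquivInt.forall_congr_left.mpr ?_
    intro n hne1
    change FreeGroup.lift (fun _ => gen i) (FreeGroup.of () ^ n) • XX j ⊆ XX i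
    simp only [map_zpow, FreeGroup.lift_apply_of]
    have hnne0 : n ≠ 0 := by
      rintro rfl
      apply hne1
      simp [H, FreeGroup.freeGroupUnitEquivInt]
    clear hne1
    rintro _ ⟨v, hv, rfl⟩
    fin_cases i <;> fin_cases j
    · exact absurd rfl hij
    · exact ping0 hnne0 hv
    · show |((gen 1) ^ n • v) 0| < |((gen 1) ^ n • v) 1|
      have h1 : gen 1 = aM * sM * aM⁻¹ := rfl
      have h2 : (gen 1) ^ n • v = aM • (sM ^ n • (aM • v)) := by
        rw [h1, conj_zpow, mul_smul, mul_smul, aM_inv]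
      rw [h2, aM_smul (sM ^ n • (aM • v))]
      have h3 : |(aM • v) 0| < |(aM • v) 1| := by
        rw [aM_smul]
        exact hv
      exact ping0 hnne0 h3
    · exact absurd rfl hij
  · right
    refine ⟨0, ?_⟩
    simp only [H]
    rw [FreeGroup.freeGroupUnitEquivInt.cardinal_eq, Cardinal.mk_denumerable]
    exact Cardinal.natCast_le_aleph0

/-- the subgroup generated by `a` and `s` is contained in `M1 ∪ a M1` -/
theorem mem_or {x : GL (Fin 2) ℤ} (hx : x ∈ Subgroup.closure {aM, sM}) :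
    x ∈ (FreeGroup.lift gen).range ∨ aM * x ∈ (FreeGroup.lift gen).range := by
  have hs : sM ∈ (FreeGroup.lift gen).range := ⟨FreeGroup.of 0, by simp [gen]⟩
  have ht : aM * sM * aM⁻¹ ∈ (FreeGroup.lift gen).range := ⟨FreeGroup.of 1, by simp [gen]⟩
  have hleft : ∀ y ∈ ({aM, sM} : Set (GL (Fin 2) ℤ)), ∀ x,
      (x ∈ (FreeGroup.lift gen).range ∨ aM * x ∈ (FreeGroup.lift gen).range) →
      (y * x ∈ (FreeGroup.lift gen).range ∨ aM * (y * x) ∈ (FreeGroup.lift gen).range) ∧
      (y⁻¹ * x ∈ (FreeGroup.lift gen).range ∨ aM * (y⁻¹ * x) ∈ (FreeGroup.lift gen).range) := by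
    rintro y (rfl | rfl) x hx
    · rw [aM_inv, ← mul_assoc, aM_mul, one_mul]
      exact ⟨hx.symm, hx.symm⟩
    · rcases hx with hx | hx
      · exact ⟨Or.inl (mul_mem hs hx), Or.inl (mul_mem (inv_mem hs) hx)⟩
      · have h1 : aM * (sM * x) = aM * sM * aM⁻¹ * (aM * x) := by group
        have h2 : aM * (sM⁻¹ * x) = (aM * sM * aM⁻¹)⁻¹ * (aM * x) := by group
        refine ⟨Or.inr ?_, Or.inr ?_⟩
        · rw [h1]
          exact mul_mem ht hx
        · rw [h2]
          exact mul_mem (inv_mem ht) hx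
  induction hx using Subgroup.closure_induction_left with
  | one => exact Or.inl (one_mem _)
  | mul_left y hy x _ ih => exact (hleft y hy x ih).1
  | inv_mul_cancel y hy x _ ih => exact (hleft y hy x ih).2

end Pool.Agent.Helper65.FN
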