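import Mathlib

/-!
# The congruence subgroup modulo 3 is torsion-free (abstract ring version)

`R` is a ring whose additive group is torsion-free and in which every nonzero element is
`3 ^ e` times an element outside `3 R`.
-/

namespace Pool.Agent.Helper65.FN

variable {R : Type*} [Ring R]

/-- the conditions on `R`. -/
structure Red3 (R : Type*) [Ring R] : Prop where
  tf : ∀ x : R, 3 * x = 0 → x = 0
  tf2 : ∀ x : R, 2 * x = 0 → x = 0
  red : ∀ x : R, x ≠ 0 → ∃ (e : ℕ) (y : R), x = 3 ^ e * y ∧ ¬ ∃ z, y = 3 * z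

theorem pow_one_add (a : R) (k : ℕ) : ∃ c, (1 + a) ^ k = 1 + (k : R) * a + a ^ 2 * c := by
  induction k with
  | zero => exact ⟨0, by simp⟩
  | succ k ih =>
    obtain ⟨c, hc⟩ := ih
    refine ⟨(k : R) + c + c * a, ?_⟩
    rw [pow_succ, hc]
    have h1 : a * (k : R) = (k : R) * a := ((Nat.cast_commute k a).eq).symm
    have h2 : (k : R) * a * a = a ^ 2 * (k : R) := by
      rw [sq, mul_assoc a a, h1, ← mul_assoc, h1]
    calc (1 + (k : R) * a + a ^ 2 * c) * (1 + a)
        = 1 + ((k : R) * a + a) + ((k : R) * a * a + a ^ 2 * c + a ^ 2 * c * a) := by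
          noncomm_ring
      _ = 1 + ((k + 1 : ℕ) : R) * a + a ^ 2 * ((k : R) + c + c * a) := by
          rw [h2]; push_cast; noncomm_ring

theorem three_comm (a : R) (e : ℕ) : a * 3 ^ e = 3 ^ e * a := by
  have h : (3 : R) ^ e = ((3 ^ e : ℕ) : R) := by push_cast; rfl
  rw [h]
  exact ((Nat.cast_commute (3 ^ e) a).eq).symm

theorem cancel3 (h : Red3 R) (e : ℕ) {a b : R} (hab : (3 : R) ^ e * a = 3 ^ e * b) : a = b := by
  induction e with
  | zero => simpa using hab
  | succ e ih =>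
    apply ih
    have h1 : (3 : R) * (3 ^ e * a - 3 ^ e * b) = 0 := by
      rw [mul_sub, ← mul_assoc, ← mul_assoc, ← pow_succ', hab, sub_self]
    exact sub_eq_zero.1 (h.tf _ h1)

/-- case of exponent prime to 3. -/
theorem torfree_coprime (h : Red3 R) {u : R} (hu : ∃ b, u - 1 = 3 * b) {k : ℕ}
    (hk : ¬ 3 ∣ k) (h1 : u ^ k = 1) : u = 1 := by
  by_contra hne
  have ha : u - 1 ≠ 0 := sub_ne_zero.2 hne
  obtain ⟨e, b, he, hb⟩ := h.red _ ha
  have he1 : 1 ≤ e := by
    rcases Nat.eq_zero_or_pos e with h0 | h0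
    · subst h0
      obtain ⟨c, hc⟩ := hu
      exact absurd ⟨c, by rw [← hc, he]; simp⟩ hb
    · exact h0
  obtain ⟨c, hc⟩ := pow_one_add (u - 1) k
  rw [add_sub_cancel, h1] at hc
  have hc2 : (k : R) * (u - 1) + (u - 1) ^ 2 * c = 0 := by
    have : (1 : R) + ((k : R) * (u - 1) + (u - 1) ^ 2 * c) = 1 + 0 := by
      rw [← add_assoc, ← hc, add_zero]
    exact add_left_cancel this
  rw [he] at hc2
  have hs : ((3 : R) ^ e * b) ^ 2 = 3 ^ e * (3 ^ e * (b * b)) := by
    rw [sq]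
    calc (3 : R) ^ e * b * (3 ^ e * b) = 3 ^ e * (b * 3 ^ e) * b := by noncomm_ring
      _ = 3 ^ e * (3 ^ e * b) * b := by rw [three_comm]
      _ = _ := by noncomm_ring
  rw [hs, ← mul_assoc, (show (k : R) * 3 ^ e = 3 ^ e * (k : R) from three_comm _ _), mul_assoc,
    mul_assoc, ← mul_add] at hc2
  have hc3 : (k : R) * b + 3 ^ e * (b * b) * c = 0 := by
    apply cancel3 h e
    rw [mul_zero, hc2]
  -- `k b ∈ 3 R`
  obtain ⟨e', rfl⟩ : ∃ e', e = e' + 1 := ⟨e - 1, by omega⟩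
  have hc4 : (k : R) * b = 3 * (-(3 ^ e' * (b * b) * c)) := by
    have : (k : R) * b = -(3 ^ (e' + 1) * (b * b) * c) := eq_neg_of_add_eq_zero_left hc3
    rw [this, pow_succ']
    noncomm_ring
  have hcop : Int.gcd 3 k = 1 := by
    have := (Nat.Prime.coprime_iff_not_dvd Nat.prime_three).2 hk
    simpa [Int.gcd] using this
  obtain ⟨s, t, hst⟩ : ∃ s t : ℤ, s * 3 + t * k = 1 := by
    have := Int.gcd_eq_gcd_ab 3 k
    refine ⟨Int.gcdA 3 k, Int.gcdB 3 k, ?_⟩
    rw [hcop] at this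
    push_cast at this
    linarith
  apply hb
  have hst' : (s : R) * 3 + (t : R) * (k : R) = 1 := by
    have := congrArg (Int.cast : ℤ → R) hst
    push_cast at this
    exact this
  refine ⟨(s : R) * b + (t : R) * (-(3 ^ e' * (b * b) * c)), ?_⟩
  have h3s : (s : R) * 3 = 3 * s := by
    have := three_comm (s : R) 1
    simpa using this
  have h3t : (t : R) * 3 = 3 * t := by
    have := three_comm (t : R) 1
    simpa using this
  calc b = ((s : R) * 3 + (t : R) * (k : R)) * b := by rw [hst', one_mul]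
    _ = (s : R) * 3 * b + (t : R) * ((k : R) * b) := by noncomm_ring
    _ = 3 * s * b + (t : R) * (3 * (-(3 ^ e' * (b * b) * c))) := by rw [hc4, h3s]
    _ = 3 * s * b + ((t : R) * 3) * (-(3 ^ e' * (b * b) * c)) := by rw [mul_assoc (t : R)]
    _ = 3 * s * b + (3 * (t : R)) * (-(3 ^ e' * (b * b) * c)) := by rw [h3t]
    _ = _ := by rw [mul_add, mul_assoc, mul_assoc]

/-- case of exponent 3. -/
theorem torfree_three (h : Red3 R) {u : R} (hu : ∃ b, u - 1 = 3 * b) (h1 : u ^ 3 = 1) :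
    u = 1 := by
  by_contra hne
  have ha : u - 1 ≠ 0 := sub_ne_zero.2 hne
  obtain ⟨e, b, he, hb⟩ := h.red _ ha
  have he1 : 1 ≤ e := by
    rcases Nat.eq_zero_or_pos e with h0 | h0
    · subst h0
      obtain ⟨c, hc⟩ := hu
      exact absurd ⟨c, by rw [← hc, he]; simp⟩ hb
    · exact h0
  obtain ⟨a, ha'⟩ : ∃ a, a = u - 1 := ⟨_, rfl⟩
  have hu1 : u = 1 + a := by rw [ha']; abel
  have hexp : 3 * a + 3 * (a * a) + a * a * a = 0 := by
    have : (1 + a) ^ 3 = 1 := by rw [← hu1]; exact h1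
    have h2 : (1 + a) ^ 3 = 1 + (3 * a + 3 * (a * a) + a * a * a) := by
      simp only [pow_succ, pow_zero, one_mul]
      noncomm_ring
    have h3 : (1 : R) + (3 * a + 3 * (a * a) + a * a * a) = 1 + 0 := by
      rw [← h2, this, add_zero]
    exact add_left_cancel h3
  rw [← ha'] at he
  obtain ⟨e', rfl⟩ : ∃ e', e = e' + 1 := ⟨e - 1, by omega⟩
  -- a * a = 3 ^ (e'+1) * 3 ^ (e'+1) * (b * b)
  have haa : a * a = 3 ^ (e' + 1) * (3 ^ (e' + 1) * (b * b)) := by
    rw [he]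
    calc (3 : R) ^ (e' + 1) * b * (3 ^ (e' + 1) * b)
        = 3 ^ (e' + 1) * (b * 3 ^ (e' + 1)) * b := by noncomm_ring
      _ = 3 ^ (e' + 1) * (3 ^ (e' + 1) * b) * b := by rw [three_comm]
      _ = _ := by noncomm_ring
  have haaa : a * a * a = 3 ^ (e' + 1) * (3 ^ (e' + 1) * (3 ^ (e' + 1) * (b * b * b))) := by
    rw [haa, he]
    calc (3 : R) ^ (e' + 1) * (3 ^ (e' + 1) * (b * b)) * (3 ^ (e' + 1) * b)
        = 3 ^ (e' + 1) * (3 ^ (e' + 1) * ((b * b) * 3 ^ (e' + 1) * b)) := by noncomm_ring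
      _ = 3 ^ (e' + 1) * (3 ^ (e' + 1) * (3 ^ (e' + 1) * (b * b) * b)) := by rw [three_comm]
      _ = _ := by noncomm_ring
  have key : (3 : R) ^ (e' + 1) * (3 * (b + 3 * (3 ^ e' * (b * b) +
      3 ^ e' * (3 ^ e' * (b * b * b))))) = 3 ^ (e' + 1) * 0 := by
    rw [mul_zero, ← hexp, haaa, haa, he]
    have h3c : ∀ y : R, (3 : R) * (3 ^ (e' + 1) * y) = 3 ^ (e' + 1) * (3 * y) := by
      intro y
      rw [← mul_assoc, ← mul_assoc, three_comm]
    rw [h3c, h3c, ← mul_add, ← mul_add]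
    congr 1
    rw [pow_succ']
    have h3d : ∀ y : R, (3 : R) ^ e' * (3 * y) = 3 * (3 ^ e' * y) := by
      intro y
      rw [← mul_assoc, ← mul_assoc, three_comm]
    simp only [mul_add, mul_assoc, h3d]
    abel
  have k2 := cancel3 h _ key
  have k3 := h.tf _ k2
  apply hb
  refine ⟨-(3 ^ e' * (b * b) + 3 ^ e' * (3 ^ e' * (b * b * b))), ?_⟩
  rw [mul_neg]
  exact eq_neg_of_add_eq_zero_left k3

theorem pow_cong {u : R} (hu : ∃ b, u - 1 = 3 * b) (k : ℕ) : ∃ b, u ^ k - 1 = 3 * b := by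
  induction k with
  | zero => exact ⟨0, by simp⟩
  | succ k ih =>
    obtain ⟨b, hb⟩ := hu
    obtain ⟨c, hc⟩ := ih
    refine ⟨c * u + b, ?_⟩
    have : u ^ (k + 1) - 1 = (u ^ k - 1) * u + (u - 1) := by rw [pow_succ]; noncomm_ring
    rw [this, hc, hb, mul_assoc, ← mul_add]

/-- the congruence subgroup modulo 3 is torsion-free. -/
theorem torfree (h : Red3 R) {k : ℕ} (hk : 0 < k) :
    ∀ {u : R}, (∃ b, u - 1 = 3 * b) → u ^ k = 1 → u = 1 := by
  induction k using Nat.strong_induction_on with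
  | _ k ih =>
    intro u hu h1
    by_cases h3 : 3 ∣ k
    · obtain ⟨m, rfl⟩ := h3
      have hm : 0 < m := by omega
      have h2 : (u ^ m) ^ 3 = 1 := by rw [← pow_mul, mul_comm]; exact h1
      have h4 := torfree_three h (pow_cong hu m) h2
      exact ih m (by omega) hm hu h4
    · exact torfree_coprime h hu h3 h1

/-- no power of `u ≡ 1` modulo 3 is `-1`. -/
theorem pow_ne_neg_one (h : Red3 R) (h10 : (1 : R) ≠ 0) {u : R} (hu : ∃ b, u - 1 = 3 * b)
    {k : ℕ} (h1 : u ^ k = -1) : False := by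
  rcases Nat.eq_zero_or_pos k with h0 | h0
  · subst h0
    rw [pow_zero] at h1
    apply h10
    apply h.tf2
    have : (1 : R) + 1 = 0 := by nth_rewrite 2 [h1]; exact add_neg_cancel 1
    rw [two_mul, this]
  · have h2 : u ^ (k * 2) = 1 := by rw [pow_mul, h1]; simp
    have h3 := torfree h (by omega : 0 < k * 2) hu h2
    rw [h3, one_pow] at h1
    apply h10
    apply h.tf2
    have : (1 : R) + 1 = 0 := by nth_rewrite 2 [h1]; exact add_neg_cancel 1
    rw [two_mul, this]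

end Pool.Agent.Helper65.FN
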