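import Pool.Agent.Helper65.PK.Fund

/-!
# Uniform bounds for cocompact groups, and the passage to the stabiliser of a hyperplane
-/

open MeasureTheory Matrix H77T2

namespace Pool.Agent.Helper65.FN

open Pool.Agent.Helper65.PK

variable {m : ℕ}

theorem mul_mulVec (a b : GL (Fin (m + 1)) ℝ) (v : Fin (m + 1) → ℝ) :
    (a * b).1 *ᵥ v = a.1 *ᵥ (b.1 *ᵥ v) := by
  rw [Units.val_mul, mulVec_mulVec]

/-- uniform bound for the number of small displacements -/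
theorem uniform_bound {Γ : Subgroup (GL (Fin (m + 1)) ℝ)} (hΓ : Γ ≤ IsomHyp m) {R : ℝ}
    (hcoc : ∀ x ∈ Hyp m, ∃ γ ∈ Γ, (γ.1 *ᵥ x) 0 ≤ R)
    (hfin : ∀ C : ℝ, {γ : GL (Fin (m + 1)) ℝ | γ ∈ Γ ∧ (γ.1 *ᵥ e0 m) 0 ≤ C}.Finite) :
    ∃ N : ℕ, ∀ p ∈ Hyp m,
      {γ : GL (Fin (m + 1)) ℝ | γ ∈ Γ ∧ mink m p (γ.1 *ᵥ p) ≤ 8}.encard ≤ N := by
  refine ⟨(hfin (32 * R ^ 2)).toFinset.card, fun p hp => ?_⟩
  obtain ⟨γ₀, hγ₀, hR⟩ := hcoc p hp
  rw [← Set.Finite.encard_eq_coe_toFinset_card]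
  apply Set.encard_le_encard_of_injOn (f := fun δ => γ₀ * δ * γ₀⁻¹)
  · rintro δ ⟨hδ, h8⟩
    refine ⟨Γ.mul_mem (Γ.mul_mem hγ₀ hδ) (Γ.inv_mem hγ₀), ?_⟩
    have hq : γ₀.1 *ᵥ p ∈ Hyp m := (isom_mem (hΓ hγ₀)).mpr hp
    set q := γ₀.1 *ᵥ p with hqdef
    set ε := γ₀ * δ * γ₀⁻¹ with hε
    have hεΓ : ε ∈ Γ := Γ.mul_mem (Γ.mul_mem hγ₀ hδ) (Γ.inv_mem hγ₀)
    have h1 : ε.1 *ᵥ q = γ₀.1 *ᵥ (δ.1 *ᵥ p) := by
      rw [hε, mul_mulVec, mul_mulVec, hqdef, inv_mulVec]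
    have h2 : mink m q (ε.1 *ᵥ q) ≤ 8 := by
      rw [h1, hqdef, isom_mink (hΓ hγ₀)]
      exact h8
    have h3 : ε.1 *ᵥ q ∈ Hyp m := (isom_mem (hΓ hεΓ)).mpr hq
    have h4 : ε.1 *ᵥ e0 m ∈ Hyp m := (isom_mem (hΓ hεΓ)).mpr e0_mem
    have h5 := tri e0_mem hq h4
    have h6 := tri hq h3 h4
    rw [isom_mink (hΓ hεΓ), mink_e0_right] at h6
    rw [mink_e0_left, mink_e0_left] at h5
    have h7 := one_le_zero hq
    have h8' := one_le_mink hq h3
    have h9 : mink m q (ε.1 *ᵥ q) * q 0 ≤ 8 * R := by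
      apply mul_le_mul h2 hR (by linarith) (by norm_num)
    have h10 : mink m q (ε.1 *ᵥ e0 m) ≤ 16 * R := by linarith
    have h11 := one_le_mink hq h4
    have h12 : q 0 * mink m q (ε.1 *ᵥ e0 m) ≤ R * (16 * R) := by
      apply mul_le_mul hR h10 (by linarith) (by linarith)
    show (ε.1 *ᵥ e0 m) 0 ≤ 32 * R ^ 2
    nlinarith
  · intro a _ b _ h
    exact mul_left_cancel (mul_right_cancel h)

/-- two linear maps that agree on the hyperboloid are equal -/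
theorem hyp_ext {W : Type*} [AddCommGroup W] [Module ℝ W] {f g : (Fin (m + 1) → ℝ) →ₗ[ℝ] W}
    (h : ∀ v ∈ Hyp m, f v = g v) : f = g := by
  have h0 : f (e0 m) = g (e0 m) := h _ e0_mem
  apply LinearMap.pi_ext'
  intro i
  apply LinearMap.ext_ring
  simp only [LinearMap.comp_apply, LinearMap.single_apply]
  refine Fin.cases ?_ (fun j => ?_) i
  · exact h0
  · have hv : Real.sqrt 2 • e0 m + Pi.single j.succ 1 ∈ Hyp m := by
      refine ⟨?_, ?_⟩
      · unfold mink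
        simp only [Pi.add_apply, Pi.smul_apply, e0_zero, e0_succ, smul_eq_mul, mul_one, mul_zero,
          zero_add]
        rw [Pi.single_eq_of_ne (Fin.succ_ne_zero j).symm, add_zero,
          Real.mul_self_sqrt (by norm_num)]
        have : ∑ i : Fin m, (Pi.single j.succ (1 : ℝ) : Fin (m + 1) → ℝ) i.succ *
            (Pi.single j.succ (1 : ℝ) : Fin (m + 1) → ℝ) i.succ = 1 := by
          rw [Finset.sum_eq_single j]
          · simp
          · intro b _ hb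
            rw [Pi.single_eq_of_ne (by simpa using hb), mul_zero]
          · intro h
            exact absurd (Finset.mem_univ _) h
        rw [this]
        norm_num
      · simp only [Pi.add_apply, Pi.smul_apply, e0_zero, smul_eq_mul, mul_one]
        rw [Pi.single_eq_of_ne (Fin.succ_ne_zero j).symm, add_zero]
        positivity
    have h1 := h _ hv
    rw [map_add, map_add, map_smul, map_smul, h0] at h1
    exact add_left_cancel h1

/-- the embedding of `H^m` into `H^(m+1)` as a linear map -/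
def inclL (m : ℕ) : (Fin (m + 1) → ℝ) →ₗ[ℝ] (Fin (m + 2) → ℝ) where
  toFun := incl m
  map_add' v w := by
    ext i
    refine Fin.lastCases ?_ (fun i => ?_) i
    · simp [incl]
    · simp [incl]
  map_smul' r v := by
    ext i
    refine Fin.lastCases ?_ (fun i => ?_) i
    · simp [incl]
    · simp [incl]

theorem inclL_apply (v : Fin (m + 1) → ℝ) : inclL m v = incl m v := rfl

theorem incl_zero (v : Fin (m + 1) → ℝ) : incl m v 0 = v 0 := by
  have h : (0 : Fin (m + 2)) = Fin.castSucc 0 := rfl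
  rw [incl, h, Fin.snoc_castSucc]

theorem mink_incl (v w : Fin (m + 1) → ℝ) : mink (m + 1) (incl m v) (incl m w) = mink m v w := by
  unfold mink
  rw [incl_zero, incl_zero, Fin.sum_univ_castSucc]
  have h1 : ∀ i : Fin m, incl m v (Fin.castSucc i).succ * incl m w (Fin.castSucc i).succ =
      v i.succ * w i.succ := by
    intro i
    have h : (Fin.castSucc i).succ = Fin.castSucc i.succ := rfl
    rw [incl, incl, h, Fin.snoc_castSucc, Fin.snoc_castSucc]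
  have h2 : incl m v (Fin.last m).succ = 0 := by
    have h : (Fin.last m).succ = Fin.last (m + 1) := rfl
    rw [incl, h, Fin.snoc_last]
  rw [Finset.sum_congr rfl fun i _ => h1 i, h2, zero_mul, add_zero]

theorem incl_mem {v : Fin (m + 1) → ℝ} (hv : v ∈ Hyp m) : incl m v ∈ Hyp (m + 1) :=
  ⟨by rw [mink_incl]; exact hv.1, by rw [incl_zero]; exact hv.2⟩

theorem incl_inj : Function.Injective (incl m) := by
  intro v w h
  ext i
  have := congrFun h (Fin.castSucc i)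
  rwa [incl, incl, Fin.snoc_castSucc, Fin.snoc_castSucc] at this

/-- the embedding of a hyperplane -/
def hypL (m : ℕ) (g : GL (Fin (m + 2)) ℝ) : (Fin (m + 1) → ℝ) →ₗ[ℝ] (Fin (m + 2) → ℝ) :=
  (Matrix.mulVecLin g.1).comp (inclL m)

theorem hypL_apply (g : GL (Fin (m + 2)) ℝ) (v : Fin (m + 1) → ℝ) :
    hypL m g v = g.1 *ᵥ incl m v := rfl

theorem hypL_mink {g : GL (Fin (m + 2)) ℝ} (hg : g ∈ IsomHyp (m + 1)) (v w : Fin (m + 1) → ℝ) :
    mink (m + 1) (hypL m g v) (hypL m g w) = mink m v w := by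
  rw [hypL_apply, hypL_apply, isom_mink hg, mink_incl]

theorem hypL_mem {g : GL (Fin (m + 2)) ℝ} (hg : g ∈ IsomHyp (m + 1)) {v : Fin (m + 1) → ℝ}
    (hv : v ∈ Hyp m) : hypL m g v ∈ Hyp (m + 1) := by
  rw [hypL_apply, isom_mem hg]
  exact incl_mem hv

theorem hypL_inj (g : GL (Fin (m + 2)) ℝ) : Function.Injective (hypL m g) := by
  intro v w h
  rw [hypL_apply, hypL_apply] at h
  have h1 := congrArg (fun x => (g⁻¹).1 *ᵥ x) h
  simp only [inv_mulVec] at h1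
  exact incl_inj h1

/-- the stabiliser has uniformly few small displacements -/
theorem hstab_bound {Γ : Subgroup (GL (Fin (m + 2)) ℝ)} {g : GL (Fin (m + 2)) ℝ}
    (hg : g ∈ IsomHyp (m + 1)) {N : ℕ}
    (hN : ∀ p ∈ Hyp (m + 1),
      {γ : GL (Fin (m + 2)) ℝ | γ ∈ Γ ∧ mink (m + 1) p (γ.1 *ᵥ p) ≤ 8}.encard ≤ N) :
    ∀ x ∈ Hyp m,
      {A : GL (Fin (m + 1)) ℝ | A ∈ hstab m Γ g ∧ mink m x (A.1 *ᵥ x) ≤ 8}.encard ≤ N := by
  intro x hx
  refine le_trans ?_ (hN _ (hypL_mem hg hx))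
  have hch : ∀ A : GL (Fin (m + 1)) ℝ, ∃ γ : GL (Fin (m + 2)) ℝ, A ∈ hstab m Γ g →
      γ ∈ Γ ∧ ∀ v ∈ Hyp m, γ.1 *ᵥ (hypL m g v) = hypL m g (A.1 *ᵥ v) := by
    intro A
    by_cases hA : A ∈ hstab m Γ g
    · obtain ⟨_, γ, hγ, h⟩ := hA
      exact ⟨γ, fun _ => ⟨hγ, h⟩⟩
    · exact ⟨1, fun h => absurd h hA⟩
  choose f hf using hch
  apply Set.encard_le_encard_of_injOn (f := f)
  · rintro A ⟨hA, h8⟩
    obtain ⟨h1, h2⟩ := hf A hA
    refine ⟨h1, ?_⟩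
    rw [h2 x hx, hypL_mink hg]
    exact h8
  · rintro A ⟨hA, -⟩ B ⟨hB, -⟩ h
    obtain ⟨-, h2⟩ := hf A hA
    obtain ⟨-, h3⟩ := hf B hB
    have h4 : Matrix.mulVecLin A.1 = Matrix.mulVecLin B.1 := by
      apply hyp_ext
      intro v hv
      apply hypL_inj g
      show hypL m g (A.1 *ᵥ v) = hypL m g (B.1 *ᵥ v)
      rw [← h2 v hv, ← h3 v hv, h]
    apply Units.ext
    apply Matrix.mulVec_injective
    ext v : 1
    exact LinearMap.congr_fun h4 v

/-- discrete subgroups of matrix groups are countable -/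
theorem countable_of_discrete (L : Subgroup (GL (Fin (m + 1)) ℝ)) [DiscreteTopology L] :
    Countable L := by
  have h1 : SecondCountableTopology (GL (Fin (m + 1)) ℝ) := by
    have : SecondCountableTopology (Matrix (Fin (m + 1)) (Fin (m + 1)) ℝ) :=
      inferInstanceAs (SecondCountableTopology (Fin (m + 1) → Fin (m + 1) → ℝ))
    have h2 : SecondCountableTopology (Matrix (Fin (m + 1)) (Fin (m + 1)) ℝ)ᵐᵒᵖ :=
      (MulOpposite.opHomeomorph (M := Matrix (Fin (m + 1)) (Fin (m + 1)) ℝ)).symm.isInducing.secondCountableTopology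
    exact Units.isInducing_embedProduct.secondCountableTopology
  exact TopologicalSpace.separableSpace_iff_countable.mp inferInstance

/-- a hyperplane with a lattice stabiliser has a cocompact stabiliser -/
theorem hstab_cocompact {Γ : Subgroup (GL (Fin (m + 2)) ℝ)} (hΓ : Γ ≤ IsomHyp (m + 1)) {R : ℝ}
    (hcoc : ∀ x ∈ Hyp (m + 1), ∃ γ ∈ Γ, (γ.1 *ᵥ x) 0 ≤ R)
    (hfin : ∀ C : ℝ, {γ : GL (Fin (m + 2)) ℝ | γ ∈ Γ ∧ (γ.1 *ᵥ e0 (m + 1)) 0 ≤ C}.Finite)
    {g : GL (Fin (m + 2)) ℝ} (hg : g ∈ IsomHyp (m + 1)) (hL : IsLattice m (hstab m Γ g)) :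
    ∃ R' : ℝ, ∀ y ∈ Hyp m, ∃ γ ∈ Γ, (∀ v, ∃ v', γ.1 *ᵥ (hypL m g v) = hypL m g v') ∧
      ∃ y' ∈ Hyp m, y' 0 ≤ R' ∧ γ.1 *ᵥ (hypL m g y) = hypL m g y' := by
  obtain ⟨hLI, hLd, F, _, hFm, hFv, hFc⟩ := hL
  obtain ⟨N, hN⟩ := uniform_bound hΓ hcoc hfin
  have : Countable (hstab m Γ g) := countable_of_discrete _
  obtain ⟨R', hR'⟩ := packing hLI hFm hFv hFc (hstab_bound hg hN)
  refine ⟨R', fun y hy => ?_⟩
  obtain ⟨A, hA, hAy⟩ := hR' y hy
  obtain ⟨hAI, γ, hγ, h⟩ := id hA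
  refine ⟨γ, hγ, ?_, A.1 *ᵥ y, (isom_mem hAI).mpr hy, hAy, h y hy⟩
  intro v
  refine ⟨A.1 *ᵥ v, ?_⟩
  have h4 : (Matrix.mulVecLin γ.1).comp (hypL m g) = (hypL m g).comp (Matrix.mulVecLin A.1) := by
    apply hyp_ext
    intro v hv
    exact h v hv
  exact LinearMap.congr_fun h4 v

end Pool.Agent.Helper65.FN
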